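import Pool.Agent.Lib.MP_8f66f0_al_Chern.Defs

/-! # P1 and P2 in a super ring.

Write `n a = f (nn a)`. Products of two letters are even: `n a * n b` commutes with every `n c` and
`α` fixes it. For a sequence of vertices `v : ℕ → Γ` put `N j = n (v j)`. -/

set_option autoImplicit false
set_option linter.unusedSectionVars false
set_option linter.unusedVariables false

namespace Pool.Agent.Lib.MP_8f66f0_al_Chern

open Pool.Agent.Lib.MP_8f66f0_al_FinQ Pool.Agent.Lib.MP_8f66f0_al_Uni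

section

variable {Γ : Type*} [Group Γ] {r : ℕ} {ω : Γ → List Γ → ℤ} {c : Γ} {K : Type*} [Ring K]
  {f : MonoidAlgebra ℤ (FreeMonoid Γ) →+* K} {α : K →+* K} {D : K →+ K} {L : K →+ ℤ}
  {deg : ℕ → AddSubgroup K}

/-- letters of the super ring -/
def abs_Let (f : MonoidAlgebra ℤ (FreeMonoid Γ) →+* K) (x : K) : Prop := ∃ a, x = f (nn a)

omit [Group Γ] in
lemma abs_cyc (g : ℕ → K) (n : ℕ) (hg : g n = g 0) :
    ∑ j ∈ Finset.range n, g (j + 1) = ∑ j ∈ Finset.range n, g j := by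
  have h1 := Finset.sum_range_succ g n
  have h2 := Finset.sum_range_succ' g n
  rw [h1, hg] at h2
  exact (add_right_cancel h2).symm

lemma abs_anti (S : Super r ω c K f α D L deg) {x y : K} (hx : abs_Let f x) (hy : abs_Let f y) :
    x * y = -(y * x) := by
  obtain ⟨a, rfl⟩ := hx
  obtain ⟨b, rfl⟩ := hy
  exact S.anti a b

lemma abs_al (S : Super r ω c K f α D L deg) {x : K} (hx : abs_Let f x) : α x = -x := by
  obtain ⟨a, rfl⟩ := hx
  exact S.α_nn a

lemma abs_D (S : Super r ω c K f α D L deg) {x : K} (hx : abs_Let f x) : D x = 1 := by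
  obtain ⟨a, rfl⟩ := hx
  exact S.D_nn a

lemma abs_D_one (S : Super r ω c K f α D L deg) : D 1 = 0 := by
  have h := S.D_mul 1 1
  rw [mul_one, map_one α, one_mul, mul_one] at h
  exact left_eq_add.mp h

lemma abs_comm2 (S : Super r ω c K f α D L deg) {x y z : K} (hx : abs_Let f x)
    (hy : abs_Let f y) (hz : abs_Let f z) : Commute (x * y) z := by
  show x * y * z = z * (x * y)
  rw [mul_assoc, abs_anti S hy hz, mul_neg, ← mul_assoc, abs_anti S hx hz, neg_mul, neg_neg,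
    mul_assoc]

lemma abs_comm_pg (S : Super r ω c K f α D L deg) {N : ℕ → K} (hN : ∀ j, abs_Let f (N j)) (n : ℕ)
    {z : K} (hz : abs_Let f z) : Commute (pg N n) z := by
  unfold pg
  exact Commute.sum_left _ _ _ fun j _ => abs_comm2 S (hN j) (hN (j + 1)) hz

lemma abs_comm_pg_pg (S : Super r ω c K f α D L deg) {N M : ℕ → K} (hN : ∀ j, abs_Let f (N j))
    (hM : ∀ j, abs_Let f (M j)) (n m : ℕ) : Commute (pg N n) (pg M m) := by
  unfold pg
  refine Commute.sum_right _ _ _ fun j _ => ?_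
  exact (abs_comm_pg S hN n (hM j)).mul_right (abs_comm_pg S hN n (hM (j + 1)))

lemma abs_al2 (S : Super r ω c K f α D L deg) {x y : K} (hx : abs_Let f x) (hy : abs_Let f y) :
    α (x * y) = x * y := by
  rw [map_mul, abs_al S hx, abs_al S hy, neg_mul_neg]

lemma abs_D2 (S : Super r ω c K f α D L deg) {x y : K} (hx : abs_Let f x) (hy : abs_Let f y) :
    D (x * y) = y - x := by
  rw [S.D_mul, abs_D S hx, abs_D S hy, abs_al S hx, one_mul, mul_one, sub_eq_add_neg]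

lemma abs_D3 (S : Super r ω c K f α D L deg) {x y z : K} (hx : abs_Let f x) (hy : abs_Let f y)
    (hz : abs_Let f z) : D (x * y * z) = y * z - x * z + x * y := by
  rw [S.D_mul, abs_D2 S hx hy, abs_D S hz, abs_al2 S hx hy, mul_one, sub_mul]

lemma abs_D_pg (S : Super r ω c K f α D L deg) {N : ℕ → K} (hN : ∀ j, abs_Let f (N j)) (n : ℕ)
    (h : N n = N 0) : D (pg N n) = 0 := by
  unfold pg
  rw [map_sum]
  have h1 : ∀ j ∈ Finset.range n, D (N j * N (j + 1)) = N (j + 1) - N j :=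
    fun j _ => abs_D2 S (hN j) (hN (j + 1))
  rw [Finset.sum_congr rfl h1, Finset.sum_sub_distrib, abs_cyc N n h, sub_self]

lemma abs_D_mul0 (S : Super r ω c K f α D L deg) {x y : K} (hx : D x = 0) (hy : D y = 0) :
    D (x * y) = 0 := by
  rw [S.D_mul, hx, hy, zero_mul, mul_zero, add_zero]

lemma abs_D_pow (S : Super r ω c K f α D L deg) {x : K} (hx : D x = 0) (k : ℕ) :
    D (x ^ k) = 0 := by
  induction k with
  | zero => rw [pow_zero]; exact abs_D_one S
  | succ k ih => rw [pow_succ]; exact abs_D_mul0 S ih hx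

lemma abs_pg_two (N : ℕ → K) (Q : ℕ) : pg N (2 * Q) =
    ∑ t ∈ Finset.range Q, (N (2 * t) * N (2 * t + 1) + N (2 * t + 1) * N (2 * t + 2)) := by
  induction Q with
  | zero => simp [pg]
  | succ Q ih =>
    rw [Finset.sum_range_succ, ← ih]
    unfold pg
    rw [show 2 * (Q + 1) = 2 * Q + 1 + 1 from rfl, Finset.sum_range_succ, Finset.sum_range_succ,
      add_assoc]

lemma abs_D_tri (S : Super r ω c K f α D L deg) {N : ℕ → K} (hN : ∀ j, abs_Let f (N j)) (Q : ℕ) :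
    D (tri N Q) = pg N (2 * Q) - pg (fun j => N (2 * j)) Q := by
  rw [abs_pg_two]
  unfold tri pg
  rw [map_sum, ← Finset.sum_sub_distrib]
  refine Finset.sum_congr rfl fun t _ => ?_
  rw [abs_D3 S (hN _) (hN _) (hN _)]
  show _ = N (2 * t) * N (2 * t + 1) + N (2 * t + 1) * N (2 * t + 2) - N (2 * t) * N (2 * (t + 1))
  rw [show 2 * (t + 1) = 2 * t + 2 from rfl]
  abel

lemma abs_D_hmt (S : Super r ω c K f α D L deg) {N : ℕ → K} (hN : ∀ j, abs_Let f (N j)) (m Q : ℕ)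
    (h : N (2 * Q) = N 0) :
    D (hmt m Q N) = (pg N (2 * Q)) ^ m - (pg (fun j => N (2 * j)) Q) ^ m := by
  have hN2 : ∀ j, abs_Let f ((fun j => N (2 * j)) j) := fun j => hN (2 * j)
  have h1 : D (pg N (2 * Q)) = 0 := abs_D_pg S hN _ h
  have h2 : D (pg (fun j => N (2 * j)) Q) = 0 := abs_D_pg S hN2 _ h
  have h3 : D (∑ k ∈ Finset.range m, (pg (fun j => N (2 * j)) Q) ^ k *
      (pg N (2 * Q)) ^ (m - 1 - k)) = 0 := by
    rw [map_sum]
    refine Finset.sum_eq_zero fun k _ => ?_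
    exact abs_D_mul0 S (abs_D_pow S h2 k) (abs_D_pow S h1 _)
  unfold hmt
  rw [S.D_mul, h3, mul_zero, add_zero, abs_D_tri S hN]
  have h4 := (abs_comm_pg_pg S hN2 hN Q (2 * Q)).mul_geom_sum₂ m
  rw [← neg_sub (pg (fun j => N (2 * j)) Q) (pg N (2 * Q)), neg_mul, h4, neg_sub]

lemma abs_B (S : Super r ω c K f α D L deg) {N : ℕ → K} (hN : ∀ j, abs_Let f (N j)) (m Q : ℕ)
    (h : N (2 * Q) = N 0) :
    L (N 2 * hmt m Q N) - L (N 0 * hmt m Q N) + (L (N 0 * N 2 * (pg N (2 * Q)) ^ m) -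
      L (N 0 * N 2 * (pg (fun j => N (2 * j)) Q) ^ m)) = 0 := by
  have h1 := S.L_D (N 0 * N 2 * hmt m Q N)
  rw [S.D_mul, abs_D2 S (hN 0) (hN 2), abs_al2 S (hN 0) (hN 2), abs_D_hmt S hN m Q h, sub_mul,
    mul_sub, map_add, map_sub, map_sub] at h1
  exact h1

lemma abs_C (S : Super r ω c K f α D L deg) {N : ℕ → K} (hN : ∀ j, abs_Let f (N j)) (m n : ℕ)
    (h : N n = N 0) :
    L (N 1 * N 2 * (pg N n) ^ m) - L (N 0 * N 2 * (pg N n) ^ m) + L (N 0 * N 1 * (pg N n) ^ m) =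
      0 := by
  have h1 := S.L_D (N 0 * N 1 * N 2 * (pg N n) ^ m)
  rw [S.D_mul, abs_D3 S (hN 0) (hN 1) (hN 2), abs_D_pow S (abs_D_pg S hN n h), mul_zero, add_zero,
    add_mul, sub_mul, map_add, map_sub] at h1
  exact h1

lemma abs_pg_shift (N : ℕ → K) (n : ℕ) (h : ∀ j, N (j + n) = N j) :
    pg (fun j => N (j + 1)) n = pg N n := by
  unfold pg
  refine abs_cyc (fun j => N j * N (j + 1)) n ?_
  have h0 : N n = N 0 := by have := h 0; rwa [zero_add] at this
  have h1 : N (n + 1) = N 1 := by have := h 1; rwa [add_comm 1 n] at this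
  show N n * N (n + 1) = N 0 * N (0 + 1)
  rw [h0, h1]

lemma abs_tri_shift (N : ℕ → K) (Q : ℕ) (h : ∀ j, N (j + 2 * Q) = N j) :
    tri (fun j => N (j + 2)) Q = tri N Q := by
  unfold tri
  refine abs_cyc (fun t => N (2 * t) * N (2 * t + 1) * N (2 * t + 2)) Q ?_
  have h0 : N (2 * Q) = N 0 := by have := h 0; rwa [zero_add] at this
  have h1 : N (2 * Q + 1) = N 1 := by have := h 1; rwa [add_comm 1 (2 * Q)] at this
  have h2 : N (2 * Q + 2) = N 2 := by have := h 2; rwa [add_comm 2 (2 * Q)] at this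
  show N (2 * Q) * N (2 * Q + 1) * N (2 * Q + 2) = N (2 * 0) * N (2 * 0 + 1) * N (2 * 0 + 2)
  rw [h0, h1, h2]

lemma abs_hmt_shift (N : ℕ → K) (m Q : ℕ) (h : ∀ j, N (j + 2 * Q) = N j) :
    hmt m Q (fun j => N (j + 2)) = hmt m Q N := by
  have hs : ∀ j, N (j + 1 + 2 * Q) = N (j + 1) := fun j => h (j + 1)
  have h1 : pg (fun j => N (j + 2)) (2 * Q) = pg N (2 * Q) := by
    have a1 := abs_pg_shift (fun j => N (j + 1)) (2 * Q) (fun j => by
      show N (j + 2 * Q + 1) = N (j + 1)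
      rw [add_right_comm]
      exact h (j + 1))
    have a2 := abs_pg_shift N (2 * Q) h
    exact a1.trans a2
  have h2 : pg (fun j => (fun j => N (j + 2)) (2 * j)) Q = pg (fun j => N (2 * j)) Q := by
    have a1 := abs_pg_shift (fun j => N (2 * j)) Q (fun j => by
      show N (2 * (j + Q)) = N (2 * j)
      rw [mul_add]
      exact h (2 * j))
    exact a1
  unfold hmt
  rw [abs_tri_shift N Q h, h1, h2]

/-- PROOF. `π = pg N n` where `N j = f (nn (v j))`; by periodicity `pg (fun j => N (t + j)) n = π`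
for every `t` (cyclic shift of the sum, induction on `t`). So the sum is
`L ((Σ_{t<n} N t * N (t+1)) * π^m) = L (π^(m+1))`. `D π = Σ (N (j+1) - N j) = N n - N 0 = 0` and
`α π = π`, so `D (π^k) = 0` (induction), and `D (N 0 * π^(m+1)) = π^(m+1)`; now `L_D`. -/
theorem exE_sum (S : Super r ω c K f α D L deg) (m n : ℕ) (v : ℕ → Γ)
    (hv : ∀ j, f (nn (v (j + n))) = f (nn (v j))) :
    ∑ t ∈ Finset.range n, L (exE m n fun j => f (nn (v (t + j)))) = 0 := by
  set N : ℕ → K := fun j => f (nn (v j)) with hNdef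
  have hN : ∀ j, abs_Let f (N j) := fun j => ⟨v j, rfl⟩
  have hp : ∀ j, N (j + n) = N j := hv
  have h0 : N n = N 0 := by have := hp 0; rwa [zero_add] at this
  have hsh : ∀ t, pg (fun j => N (t + j)) n = pg N n := by
    intro t
    induction t with
    | zero => simp only [zero_add]
    | succ t ih =>
      have h1 := abs_pg_shift (fun j => N (t + j)) n (fun j => by
        show N (t + (j + n)) = N (t + j)
        rw [← add_assoc]
        exact hp (t + j))
      rw [← ih, ← h1]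
      congr 1
      funext j
      show N (t + 1 + j) = N (t + (j + 1))
      rw [add_assoc, add_comm 1 j]
  have h2 : ∀ t ∈ Finset.range n, L (exE m n fun j => f (nn (v (t + j)))) =
      L (N t * N (t + 1) * (pg N n) ^ m) := by
    intro t _
    have h3 : (exE m n fun j => f (nn (v (t + j)))) =
        N (t + 0) * N (t + 1) * (pg (fun j => N (t + j)) n) ^ m := rfl
    rw [h3, hsh t, add_zero]
  rw [Finset.sum_congr rfl h2, ← map_sum, ← Finset.sum_mul]
  have h4 : (∑ i ∈ Finset.range n, N i * N (i + 1)) * (pg N n) ^ m = (pg N n) ^ (m + 1) := by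
    rw [pow_succ']
    rfl
  rw [h4]
  have h5 := S.L_D (N 0 * (pg N n) ^ (m + 1))
  rw [S.D_mul, abs_D_pow S (abs_D_pg S hN n h0), mul_zero, add_zero, abs_D S (hN 0), one_mul] at h5
  exact h5

/-- PROOF. `N j = f (nn (v j))`, `π = pg N (2Q)`, `π0 = pg (N (2j)) Q`, `π1 = pg (N (2j+1)) Q`,
`τ0 = tri N Q`, `τ1 = tri (N (j+1)) Q`, `T0 = hmt m Q N`, `T1 = hmt m Q (N (j+1))`.
(1) By periodicity `pg (N (j+1)) (2Q) = π`, `pg (N (j+2)) (2Q) = π`, `pg (N (2j+2)) Q = π0`,
`hmt m Q (N (j+2)) = T0`, `hmt m Q (N (j+3)) = T1` (cyclic shifts of the sums).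
(2) `D (N a * N b) = N b - N a`, `D (N a * N b * N c) = N b * N c - N a * N c + N a * N b`,
so `D τ0 = π - π0`, `D τ1 = π - π1` (for `π` write `Σ_{j<2Q} = Σ_{t<Q}` of the terms `2t`, `2t+1`),
`D π = D π0 = D π1 = 0`; `π, π0, π1` are even (commute with all `N j` and with each other, fixed
by `α`), `α τ0 = -τ0`.
(3) `D T0 = (π - π0) * Σ_k π0^k π^(m-1-k) = π^m - π0^m` (`Commute.mul_geom_sum₂` or similar),
`D T1 = π^m - π1^m`.
(4) `L (D (N 0 * N 2 * T0)) = 0` gives `L ((N 2 - N 0) * T0) + L (N 0 * N 2 * (π^m - π0^m)) = 0`;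
`L (D (N 1 * N 3 * T1)) = 0` gives `L ((N 3 - N 1) * T1) + L (N 1 * N 3 * (π^m - π1^m)) = 0`;
`L (D (N 0 * N 1 * N 2 * π^m)) = 0` gives `L (N 0 N 2 π^m) = L (N 0 N 1 π^m) + L (N 1 N 2 π^m)`,
and the same with `1, 2, 3`.
(5) The left side is `L (N 2 N 3 π^m - N 0 N 1 π^m) + L ((N 3 - N 1) T1) - L ((N 2 - N 0) T0)`, which
by (4) equals `L (N 1 N 3 π1^m) - L (N 0 N 2 π0^m)`. -/
theorem exF_diff (S : Super r ω c K f α D L deg) (m Q : ℕ) (v : ℕ → Γ)
    (hv : ∀ j, f (nn (v (j + 2 * Q))) = f (nn (v j))) :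
    L (exF m Q fun j => f (nn (v (j + 2)))) - L (exF m Q fun j => f (nn (v j))) =
      L (exE m Q fun j => f (nn (v (2 * j + 1)))) - L (exE m Q fun j => f (nn (v (2 * j)))) := by
  set N : ℕ → K := fun j => f (nn (v j)) with hNdef
  have hN : ∀ j, abs_Let f (N j) := fun j => ⟨v j, rfl⟩
  have hN1 : ∀ j, abs_Let f ((fun j => N (j + 1)) j) := fun j => ⟨v (j + 1), rfl⟩
  have hp : ∀ j, N (j + 2 * Q) = N j := hv
  have hp1 : ∀ j, (fun j => N (j + 1)) (j + 2 * Q) = (fun j => N (j + 1)) j := by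
    intro j
    show N (j + 2 * Q + 1) = N (j + 1)
    rw [add_right_comm]
    exact hp (j + 1)
  have h0 : N (2 * Q) = N 0 := by have := hp 0; rwa [zero_add] at this
  have h1 : (fun j => N (j + 1)) (2 * Q) = (fun j => N (j + 1)) 0 := by
    have := hp1 0; rwa [zero_add] at this
  have hpi : pg (fun j => N (j + 1)) (2 * Q) = pg N (2 * Q) := abs_pg_shift N (2 * Q) hp
  have hpi2 : pg (fun j => N (j + 2)) (2 * Q) = pg N (2 * Q) :=
    (abs_pg_shift (fun j => N (j + 1)) (2 * Q) hp1).trans hpi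
  have hT0 : hmt m Q (fun j => N (j + 2)) = hmt m Q N := abs_hmt_shift N m Q hp
  have hT1 : hmt m Q (fun j => N (j + 3)) = hmt m Q (fun j => N (j + 1)) :=
    abs_hmt_shift (fun j => N (j + 1)) m Q hp1
  have b0 := abs_B S hN m Q h0
  have b1 := abs_B S hN1 m Q h1
  have c0 := abs_C S hN m (2 * Q) h0
  have c1 := abs_C S hN1 m (2 * Q) h1
  rw [hpi] at b1 c1
  have e1 : (exF m Q fun j => f (nn (v (j + 2)))) = N 2 * N 3 * (pg (fun j => N (j + 2)) (2 * Q)) ^ m +
      N 3 * hmt m Q (fun j => N (j + 3)) - N 2 * hmt m Q (fun j => N (j + 2)) := rfl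
  have e2 : (exF m Q fun j => f (nn (v j))) = N 0 * N 1 * (pg N (2 * Q)) ^ m +
      N 1 * hmt m Q (fun j => N (j + 1)) - N 0 * hmt m Q N := rfl
  have e3 : (exE m Q fun j => f (nn (v (2 * j + 1)))) =
      N 1 * N 3 * (pg (fun j => N (2 * j + 1)) Q) ^ m := rfl
  have e4 : (exE m Q fun j => f (nn (v (2 * j)))) =
      N 0 * N 2 * (pg (fun j => N (2 * j)) Q) ^ m := rfl
  rw [e1, e2, e3, e4, hpi2, hT0, hT1, map_sub, map_add, map_sub, map_add]
  have b1' : L (N 3 * hmt m Q (fun j => N (j + 1))) - L (N 1 * hmt m Q (fun j => N (j + 1))) +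
      (L (N 1 * N 3 * (pg N (2 * Q)) ^ m) -
      L (N 1 * N 3 * (pg (fun j => N (2 * j + 1)) Q) ^ m)) = 0 := b1
  have c1' : L (N 2 * N 3 * (pg N (2 * Q)) ^ m) - L (N 1 * N 3 * (pg N (2 * Q)) ^ m) +
      L (N 1 * N 2 * (pg N (2 * Q)) ^ m) = 0 := c1
  linarith

end

end Pool.Agent.Lib.MP_8f66f0_al_Chern
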