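import Pool.Agent.Lib.MP_8f66f0_al_Chern.SynGen

/-! # Algebra in the matrix ring over the ring of marked words. -/

set_option autoImplicit false
set_option linter.unusedSectionVars false
set_option linter.unusedVariables false

namespace Pool.Agent.Lib.MP_8f66f0_al_Chern

open Pool.Agent.Lib.MP_8f66f0_al_FinQ Pool.Agent.Lib.MP_8f66f0_al_Uni

variable {Γ : Type*} [Group Γ] {n : ℕ}

/-- PROOF. `x * y = N b N (a b) N a N = N b (N N) a N = 0`, so `x * (1 + (x + y)) = x * (1 + x)`;
and `x * (1 + (x+y))^k = x * (1 + x)^k` by induction (`x` commutes with `1 + x`). -/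
theorem alg_x {R : Type*} [Ring R] (a b N : R) (hba : b * a = 1) (hab : a * b = 1)
    (hN : N * N = 0) (k : ℕ) :
    (N * b * N * a) * (1 + (N * b * N * a + b * N * a * N)) ^ k =
      (N * b * N * a) * (1 + N * b * N * a) ^ k := by
  have h1 : (N * b * N * a) * (b * N * a * N) = 0 := by
    calc (N * b * N * a) * (b * N * a * N) = N * b * N * (a * b) * N * a * N := by noncomm_ring
      _ = N * b * (N * N) * a * N := by rw [hab]; noncomm_ring
      _ = 0 := by rw [hN]; noncomm_ring
  have h2 : (N * b * N * a) * (1 + (N * b * N * a + b * N * a * N)) =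
      (1 + N * b * N * a) * (N * b * N * a) := by
    rw [mul_add, mul_add, h1, add_zero, mul_one, add_mul, one_mul]
  have h3 : (N * b * N * a) * (1 + N * b * N * a) = (1 + N * b * N * a) * (N * b * N * a) := by
    rw [mul_add, mul_one, add_mul, one_mul]
  induction k with
  | zero => rw [pow_zero, pow_zero]
  | succ k ih =>
    generalize N * b * N * a = x at *
    generalize b * N * a * N = y at *
    calc x * (1 + (x + y)) ^ (k + 1) = (x * (1 + (x + y))) * (1 + (x + y)) ^ k := by
          rw [pow_succ', mul_assoc]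
      _ = (1 + x) * (x * (1 + (x + y)) ^ k) := by rw [h2, mul_assoc]
      _ = ((1 + x) * x) * (1 + x) ^ k := by rw [ih, mul_assoc]
      _ = x * (1 + x) ^ (k + 1) := by rw [← h3, pow_succ', mul_assoc]

/-- PROOF. `N * (1 + x + y) = N + N b N a N = (1 + x + y) * N`, so `N` commutes with the powers, and
`N * (N b N a N) = 0`. -/
theorem alg_T {R : Type*} [Ring R] (a b N : R) (hba : b * a = 1) (hab : a * b = 1)
    (hN : N * N = 0) (k : ℕ) :
    N * (1 + (N * b * N * a + b * N * a * N)) ^ k * (N * b * N * a * N) = 0 := by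
  have h1 : N * (1 + (N * b * N * a + b * N * a * N)) = N + N * b * N * a * N := by
    calc N * (1 + (N * b * N * a + b * N * a * N)) =
          N + (N * N) * b * N * a + N * b * N * a * N := by noncomm_ring
      _ = N + N * b * N * a * N := by rw [hN]; noncomm_ring
  have h2 : (1 + (N * b * N * a + b * N * a * N)) * N = N + N * b * N * a * N := by
    calc (1 + (N * b * N * a + b * N * a * N)) * N =
          N + N * b * N * a * N + b * N * a * (N * N) := by noncomm_ring
      _ = N + N * b * N * a * N := by rw [hN]; noncomm_ring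
  have h3 : Commute N (1 + (N * b * N * a + b * N * a * N)) := h1.trans h2.symm
  rw [(h3.pow_right k).eq, mul_assoc]
  have h4 : N * (N * b * N * a * N) = 0 := by
    calc N * (N * b * N * a * N) = (N * N) * b * N * a * N := by noncomm_ring
      _ = 0 := by rw [hN]; noncomm_ring
  rw [h4, mul_zero]

lemma alg_up (x : MonoidAlgebra ℤ Γ) : upHom x = x.coeff.sum fun g a => a • uM g := by
  have h1 : ∀ (g : Γ) (a : ℤ), upHom (MonoidAlgebra.single g a) = a • (uM g : RM Γ) := by
    intro g a
    unfold upHom uM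
    rw [MonoidAlgebra.mapDomainRingHom_apply, MonoidAlgebra.mapDomain_single,
      MonoidAlgebra.smul_single, smul_eq_mul, mul_one]
    rfl
  conv_lhs => rw [← MonoidAlgebra.sum_coeff_single x]
  rw [Finsupp.sum, map_sum]
  exact Finset.sum_congr rfl fun g _ => h1 g _

lemma alg_bil (p q r : RM Γ) (x y : MonoidAlgebra ℤ Γ) :
    (x.coeff.sum fun h b => y.coeff.sum fun g a => (b * a) • (p * uM h * q * uM g * r)) =
      p * upHom x * q * upHom y * r := by
  rw [alg_up x, Finsupp.sum, Finsupp.sum, Finset.mul_sum, Finset.sum_mul, Finset.sum_mul,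
    Finset.sum_mul]
  refine Finset.sum_congr rfl fun h _ => ?_
  rw [alg_up y, Finsupp.sum, Finsupp.sum, Finset.mul_sum, Finset.sum_mul]
  refine Finset.sum_congr rfl fun g _ => ?_
  simp only [mul_smul_comm, smul_mul_assoc, smul_smul]
  rw [mul_comm (x.coeff h)]

lemma alg_ext2 (A B : Matrix (Fin n) (Fin n) (MonoidAlgebra ℤ Γ)) (p q r : RM Γ) :
    ext2 B A (fun h g => p * uM h * q * uM g * r) =
      Matrix.scalar (Fin n) p * B.map upHom * Matrix.scalar (Fin n) q * A.map upHom *
        Matrix.scalar (Fin n) r := by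
  ext1 i k
  unfold ext2
  simp only [Matrix.of_apply, Matrix.scalar_apply, Matrix.mul_diagonal]
  rw [Matrix.mul_apply, Finset.sum_mul]
  refine Finset.sum_congr rfl fun j _ => ?_
  rw [alg_bil, Matrix.mul_diagonal, Matrix.diagonal_mul]
  rfl

lemma alg_ext2_add {R : Type*} [Ring R] (A B : Matrix (Fin n) (Fin n) (MonoidAlgebra ℤ Γ))
    (y z : Γ → Γ → R) :
    ext2 B A (fun h g => y h g + z h g) = ext2 B A y + ext2 B A z := by
  ext1 i k
  unfold ext2
  simp only [Matrix.of_apply, Matrix.add_apply]
  rw [← Finset.sum_add_distrib]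
  refine Finset.sum_congr rfl fun j _ => ?_
  simp only [Finsupp.sum]
  rw [← Finset.sum_add_distrib]
  refine Finset.sum_congr rfl fun h _ => ?_
  rw [← Finset.sum_add_distrib]
  refine Finset.sum_congr rfl fun g _ => ?_
  rw [smul_add]

lemma alg_ext2_smul {R : Type*} [Ring R] (A B : Matrix (Fin n) (Fin n) (MonoidAlgebra ℤ Γ))
    (s : ℤ) (y : Γ → Γ → R) :
    ext2 B A (fun h g => s • y h g) = s • ext2 B A y := by
  ext1 i k
  unfold ext2
  simp only [Matrix.of_apply, Matrix.smul_apply]
  rw [Finset.smul_sum]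
  refine Finset.sum_congr rfl fun j _ => ?_
  simp only [Finsupp.sum]
  rw [Finset.smul_sum]
  refine Finset.sum_congr rfl fun h _ => ?_
  rw [Finset.smul_sum]
  refine Finset.sum_congr rfl fun g _ => ?_
  rw [smul_smul, smul_smul, mul_comm]

/-- the matrices `ext2` of the factors. PROOF: bilinearity; `upHom (single g 1) = uM g`. -/
theorem ext2_E (A B : Matrix (Fin n) (Fin n) (MonoidAlgebra ℤ Γ)) :
    ext2 B A (yy Ty.E) = Matrix.scalar (Fin n) nM * B.map upHom * Matrix.scalar (Fin n) nM *
      A.map upHom := by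
  have h := alg_ext2 A B nM nM 1
  rw [map_one, mul_one] at h
  rw [← h]
  congr 1
  funext x y
  rw [mul_one]
  rfl

theorem ext2_T (A B : Matrix (Fin n) (Fin n) (MonoidAlgebra ℤ Γ)) :
    ext2 B A (yy Ty.T) = Matrix.scalar (Fin n) nM * B.map upHom * Matrix.scalar (Fin n) nM *
      A.map upHom * Matrix.scalar (Fin n) nM :=
  alg_ext2 A B nM nM nM

theorem ext2_X (A B : Matrix (Fin n) (Fin n) (MonoidAlgebra ℤ Γ)) (s : ℤ) :
    ext2 B A (yy (Ty.X s)) = B.map upHom * A.map upHom +
      s • (Matrix.scalar (Fin n) nM * B.map upHom * A.map upHom * Matrix.scalar (Fin n) nM) +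
      Matrix.scalar (Fin n) nM * B.map upHom * Matrix.scalar (Fin n) nM * A.map upHom +
      B.map upHom * Matrix.scalar (Fin n) nM * A.map upHom * Matrix.scalar (Fin n) nM := by
  have h1 := alg_ext2 A B 1 1 1
  have h2 := alg_ext2 A B nM 1 nM
  have h3 := alg_ext2 A B nM nM 1
  have h4 := alg_ext2 A B 1 nM nM
  simp only [map_one, mul_one, one_mul] at h1 h2 h3 h4
  rw [← h1, ← h2, ← h3, ← h4, ← alg_ext2_smul, ← alg_ext2_add, ← alg_ext2_add, ← alg_ext2_add]
  rfl

end Pool.Agent.Lib.MP_8f66f0_al_Chern
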