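import Pool.Agent.Lib.MP_8f66f0_al_Chern.Defs2
import Pool.Agent.Lib.MP_8f66f0_al_Chern.Vx
import Pool.Agent.Lib.MP_8f66f0_al_Uni.LemmaB

/-! # The core of the argument. -/

set_option autoImplicit false
set_option linter.unusedSectionVars false
set_option linter.unusedVariables false

namespace Pool.Agent.Lib.MP_8f66f0_al_Chern

open Pool.Agent.Lib.MP_8f66f0_al_FinQ Pool.Agent.Lib.MP_8f66f0_al_Uni

variable {Γ : Type*} [Group Γ]

theorem core_abel (f : ℕ → ℤ) (Q : ℕ) :
    ∑ t ∈ Finset.range Q, (t : ℤ) * (f (t + 1) - f t) =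
      Q * f Q - ∑ t ∈ Finset.range Q, f t - f Q + f 0 := by
  induction Q with
  | zero => simp
  | succ Q ih =>
    rw [Finset.sum_range_succ, ih, Finset.sum_range_succ]
    push_cast
    ring

theorem core_rot {P : List Γ → Prop} {k N : ℕ}
    (h : ∀ x : List Γ, x.length = N → P x → P (x.rotate k)) (x : List Γ) (hx : x.length = N)
    (hP : P x) (t : ℕ) : P (x.rotate (k * t)) := by
  induction t with
  | zero => simpa using hP
  | succ t ih =>
    have h1 := h (x.rotate (k * t)) (by rw [List.length_rotate, hx]) ih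
    rw [List.rotate_rotate] at h1
    exact h1

theorem core_rot_iff {P : List Γ → Prop} {k N m : ℕ} (hN : N = k * (m + 1))
    (h : ∀ x : List Γ, x.length = N → P x → P (x.rotate k)) (x : List Γ) (hx : x.length = N) :
    P (x.rotate k) ↔ P x := by
  refine ⟨fun hP => ?_, h x hx⟩
  have h1 := core_rot h (x.rotate k) (by rw [List.length_rotate, hx]) hP m
  rw [List.rotate_rotate] at h1
  have h2 : k + k * m = x.length := by rw [hx, hN]; ring
  rwa [h2, List.rotate_length] at h1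

/-- the weighted sum over the rotations -/
def core_S (ε : List Γ → ℤ) (Q : ℕ) (x : List Γ) : ℤ :=
  ∑ t ∈ Finset.range Q, (t : ℤ) * ε (x.rotate t)

theorem core_S_rot {ε : List Γ → ℤ} {Q : ℕ} (x : List Γ) (hx : x.length = Q)
    (P1 : ∑ t ∈ Finset.range Q, ε (x.rotate t) = 0) :
    core_S ε Q (x.rotate 1) = core_S ε Q x + Q * ε x := by
  have h1 := core_abel (fun t => ε (x.rotate t)) Q
  rw [P1] at h1
  have h2 : x.rotate Q = x := by rw [← hx, List.rotate_length]
  rw [h2, List.rotate_zero] at h1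
  unfold core_S
  have h3 : ∀ t : ℕ, (x.rotate 1).rotate t = x.rotate (t + 1) := by
    intro t
    rw [List.rotate_rotate, add_comm]
  simp only [h3]
  simp only [mul_sub] at h1
  rw [Finset.sum_sub_distrib] at h1
  linarith

theorem core_F {ε F : List Γ → ℤ} {Q : ℕ}
    (P2 : ∀ e : List Γ, e.length = 2 * Q →
      F (e.rotate 2) - F e = ε (d0 (e.rotate 1)) - ε (d0 e)) (e : List Γ)
    (he : e.length = 2 * Q) :
    ∑ t ∈ Finset.range Q, F (e.rotate (2 * t)) =
      Q * F e - core_S ε Q (d0 (e.rotate 1)) + core_S ε Q (d0 e) := by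
  have h1 := core_abel (fun t => F (e.rotate (2 * t))) Q
  have h2 : e.rotate (2 * Q) = e := by rw [← he, List.rotate_length]
  rw [h2, Nat.mul_zero, List.rotate_zero] at h1
  have h3 : ∀ t : ℕ, F (e.rotate (2 * (t + 1))) - F (e.rotate (2 * t)) =
      ε ((d0 (e.rotate 1)).rotate t) - ε ((d0 e).rotate t) := by
    intro t
    have h4 := P2 (e.rotate (2 * t)) (by rw [List.length_rotate, he])
    have h5 : (e.rotate (2 * t)).rotate 1 = (e.rotate 1).rotate (2 * t) := by
      rw [List.rotate_rotate, List.rotate_rotate, add_comm]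
    rw [List.rotate_rotate, h5, d0_rotate Q (e.rotate 1) (by rw [List.length_rotate, he]),
      d0_rotate Q e he] at h4
    exact h4
  simp only [h3, mul_sub] at h1
  rw [Finset.sum_sub_distrib] at h1
  unfold core_S
  linarith

theorem core_wrot {n : ℕ} (B A : Matrix (Fin n) (Fin n) (MonoidAlgebra ℤ Γ)) (Q : ℕ)
    (G : List Γ → ℤ) (t : ℕ) :
    wsum B A Q (fun e => G (e.rotate (2 * t))) = wsum B A Q G := by
  induction t with
  | zero => simp
  | succ t ih =>
    rw [← ih, ← wsum_rotate B A Q (fun w => G (w.rotate (2 * t)))]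
    refine wsum_congr B A Q fun w _ => ?_
    rw [List.rotate_rotate]
    congr 2
    ring

theorem core_count {q : ℕ} [NeZero q] (h : ZMod q → ℤ) (r : ℕ) :
    ∑ t ∈ Finset.range (q * r), h (t : ZMod q) = r * ∑ a, h a := by
  induction r with
  | zero => simp
  | succ r ih =>
    rw [Nat.mul_succ, Finset.sum_range_add, ih]
    have h1 : ∑ s ∈ Finset.range q, h ((q * r + s : ℕ) : ZMod q) = ∑ a, h a := by
      refine Finset.sum_nbij' (fun s => ((s : ℕ) : ZMod q)) (fun a => a.val) ?_ ?_ ?_ ?_ ?_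
      · intro s _
        exact Finset.mem_univ _
      · intro a _
        exact Finset.mem_range.2 (ZMod.val_lt a)
      · intro s hs
        exact ZMod.val_cast_of_lt (Finset.mem_range.1 hs)
      · intro a _
        exact ZMod.natCast_zmod_val a
      · intro s _
        congr 1
        push_cast
        simp
    rw [h1]
    push_cast
    ring

theorem core_ph {σ : List Γ → List Γ} {P : List Γ → Prop} {q : ℕ} {θ : List Γ → ℤ}
    (h : IsPh σ P q θ) (x : List Γ) (hx : P x) :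
    ((θ (σ x) : ℤ) : ZMod q) = ((θ x : ℤ) : ZMod q) + 1 := by
  have h1 := (ZMod.intCast_zmod_eq_zero_iff_dvd _ q).2 (h.shift x hx)
  push_cast at h1
  linear_combination h1

open Classical in
/-- the indicator function of a phase -/
noncomputable def core_I (q : ℕ) (Y : List Γ → Prop) (Θ : List Γ → ℤ) (a : ZMod q)
    (e : List Γ) : ℤ := if Y e ∧ ((Θ e : ℤ) : ZMod q) = a then 1 else 0

theorem core_I_zero {q : ℕ} {Y : List Γ → Prop} {Θ : List Γ → ℤ} {a : ZMod q} {e : List Γ}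
    (h : ¬ Y e) : core_I q Y Θ a e = 0 := by
  unfold core_I
  rw [if_neg fun h' => h h'.1]

theorem core_I_rot {q N k m : ℕ} {Y : List Γ → Prop} {Θ : List Γ → ℤ} (hN : N = k * (m + 1))
    (hYr : ∀ e : List Γ, e.length = N → Y e → Y (e.rotate k))
    (hΘ : IsPh (fun x : List Γ => x.rotate k) (fun e => e.length = N ∧ Y e) q Θ)
    (a : ZMod q) (e : List Γ) (he : e.length = N) :
    core_I q Y Θ (a + 1) (e.rotate k) = core_I q Y Θ a e := by
  unfold core_I
  rw [core_rot_iff hN hYr e he]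
  by_cases hY : Y e
  · have h1 := core_ph hΘ e ⟨he, hY⟩
    rw [h1]
    simp only [hY, true_and, add_left_inj]
  · simp only [hY, false_and]

theorem core_I_sum {q : ℕ} [NeZero q] (Y : List Γ → Prop) (Θ : List Γ → ℤ) (e : List Γ) (hY : Y e) :
    ∑ a, core_I q Y Θ a e = 1 := by
  unfold core_I
  simp only [hY, true_and]
  rw [Finset.sum_ite_eq]
  simp

/-- Comparison of the two phases. -/
theorem core_cmp {n : ℕ} (A B : Matrix (Fin n) (Fin n) (MonoidAlgebra ℤ Γ)) (Q q : ℕ)
    [NeZero q] (m : ℕ) (hm : Q = m + 1)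
    (ε : List Γ → ℤ)
    (P1 : ∀ x : List Γ, x.length = Q → ∑ t ∈ Finset.range Q, ε (x.rotate t) = 0)
    (X Y : List Γ → Prop) (θ Θ : List Γ → ℤ)
    (hXr : ∀ x : List Γ, x.length = Q → X x → X (x.rotate 1))
    (hYr : ∀ e : List Γ, e.length = 2 * Q → Y e → Y (e.rotate 2))
    (hθ : IsPh (fun x : List Γ => x.rotate 1) (fun x => x.length = Q ∧ X x) q θ)
    (hΘ : IsPh (fun x : List Γ => x.rotate 2) (fun e => e.length = 2 * Q ∧ Y e) q Θ)
    (hε : ∀ x : List Γ, x.length = Q → ¬ X x → ε x = 0)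
    (D : List Γ → List Γ) (hDl : ∀ e : List Γ, e.length = 2 * Q → (D e).length = Q)
    (hDr : ∀ e : List Γ, e.length = 2 * Q → D (e.rotate 2) = (D e).rotate 1)
    (hXY : ∀ e : List Γ, e.length = 2 * Q → X (D e) → Y e) :
    ((wsum B A Q (fun e => core_S ε Q (D e) * core_I q Y Θ 0 e) : ℤ) : ZMod Q) =
      ((wsum B A Q (fun e => core_S ε Q (D e) * core_I q X θ 0 (D e)) : ℤ) : ZMod Q) := by
  have hN1 : Q = 1 * (m + 1) := by rw [hm, one_mul]
  have hN2 : 2 * Q = 2 * (m + 1) := by rw [hm]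
  -- the weighted sum vanishes outside of `X`
  have hS0 : ∀ x : List Γ, x.length = Q → ¬ X x → core_S ε Q x = 0 := by
    intro x hx hX
    unfold core_S
    refine Finset.sum_eq_zero fun t _ => ?_
    have h1 : ¬ X (x.rotate t) := by
      have h2 := core_rot (P := fun x => ¬ X x) (k := 1) (N := Q)
        (fun y hy hXy h => hXy ((core_rot_iff hN1 hXr y hy).1 h)) x hx hX t
      rwa [one_mul] at h2
    rw [hε _ (by rw [List.length_rotate, hx]) h1, mul_zero]
  set E : ZMod q → ZMod q → List Γ → ℤ := fun a b e =>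
    core_S ε Q (D e) * (core_I q Y Θ a e * core_I q X θ b (D e)) with hE
  have hE1 : ∀ a b, (Q : ℤ) ∣ wsum B A Q (E (a + 1) (b + 1)) - wsum B A Q (E a b) := by
    intro a b
    rw [← wsum_rotate B A Q (E (a + 1) (b + 1))]
    refine LemmaB.wsum_dvd B A Q _ fun e he => ?_
    simp only [hE]
    rw [hDr e he, core_I_rot hN2 hYr hΘ a e he, core_I_rot hN1 hXr hθ b (D e) (hDl e he),
      core_S_rot (D e) (hDl e he) (P1 _ (hDl e he))]
    exact ⟨ε (D e) * (core_I q Y Θ a e * core_I q X θ b (D e)), by ring⟩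
  have hE2 : ∀ b c : ZMod q, ((wsum B A Q (E c (b + c)) : ℤ) : ZMod Q) =
      ((wsum B A Q (E 0 (b + 0)) : ℤ) : ZMod Q) := by
    intro b
    refine LemmaB.const_of_add_one (fun c => ((wsum B A Q (E c (b + c)) : ℤ) : ZMod Q)) ?_
    intro c
    have h1 := (ZMod.intCast_zmod_eq_zero_iff_dvd _ Q).2 (hE1 c (b + c))
    rw [Int.cast_sub, sub_eq_zero] at h1
    rw [← add_assoc]
    exact h1
  have hE3 : ∀ b : ZMod q, ((wsum B A Q (E 0 b) : ℤ) : ZMod Q) =
      ((wsum B A Q (E (-b) 0) : ℤ) : ZMod Q) := by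
    intro b
    have h1 := hE2 b (-b)
    rw [add_neg_cancel, add_zero] at h1
    exact h1.symm
  have h1 : wsum B A Q (fun e => core_S ε Q (D e) * core_I q Y Θ 0 e) =
      ∑ b, wsum B A Q (E 0 b) := by
    rw [← LemmaB.wsum_finsum]
    refine wsum_congr B A Q fun e he => ?_
    simp only [hE]
    by_cases hX : X (D e)
    · rw [← Finset.mul_sum, ← Finset.mul_sum, core_I_sum X θ _ hX, mul_one]
    · rw [hS0 _ (hDl e he) hX]
      simp
  have h2 : wsum B A Q (fun e => core_S ε Q (D e) * core_I q X θ 0 (D e)) =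
      ∑ a, wsum B A Q (E a 0) := by
    rw [← LemmaB.wsum_finsum]
    refine wsum_congr B A Q fun e he => ?_
    simp only [hE]
    by_cases hX : X (D e)
    · rw [← Finset.mul_sum, ← Finset.sum_mul, core_I_sum Y Θ _ (hXY e he hX), one_mul]
    · rw [hS0 _ (hDl e he) hX]
      simp
  rw [h1, h2, Int.cast_sum, Int.cast_sum]
  rw [Finset.sum_congr rfl fun b _ => hE3 b]
  exact Fintype.sum_equiv (Equiv.neg (ZMod q)) _ _ fun b => rfl

theorem core_d0 {n : ℕ} (A B : Matrix (Fin n) (Fin n) (MonoidAlgebra ℤ Γ)) (hBA : B * A = 1)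
    (Q : ℕ) (f : List Γ → ℤ) (h1 : f (List.replicate Q 1) = 0) :
    wsum B A Q (fun w => f (d0 w)) = 0 := by
  refine wsum_d0 (MonoidHom.id Γ) 0 ?_ Q ?_ h1
  · intro i j
    rw [hBA, sub_self]
    exact zero_mem _
  · intro u v k hk g
    have h2 : k = 1 := hk
    rw [h2]
    change f (u ++ (1 * g) :: v) - f (u ++ g :: v) = 0
    rw [one_mul, sub_self]

/-- PROOF. Write `T G = wsum B A Q G`; only words of length `2 Q` count (`wsum_congr`). For `x` of
length `Q` put `S x = Σ_{t<Q} t * ε (x.rotate t)`.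
(1) For `x` of length `Q`: `S (x.rotate 1) = S x + Q * ε x` (by (P1) and `x.rotate Q = x`).
(2) For `e` of length `2 Q`: `Σ_{t<Q} F (e.rotate (2 t)) = Q * F e - S (d0 (e.rotate 1)) + S (d0 e)`:
with `Δ t = F (e.rotate (2 (t+1))) - F (e.rotate (2 t)) = ε (d0 (e.rotate 1) rotated t) -
ε ((d0 e) rotated t)` by (P2) and `d0_rotate`, `Σ_t F (e.rotate (2 t)) = Q F e + Σ_t (Q-1-t) Δ t` and
`Σ_t Δ t = 0`.
(3) Let `I a e = 1` if `Y e` and `Θ e ≡ a (mod q)`, else `0`; `Y` is invariant under rotation by 2 of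
words of length `2 Q` (both directions). `Σ_{t<Q} I t = r0 * 1_Y`; `T (F * I t) = T ((F ∘ rotate (2t)) * I 0)`
(`wsum_rotate`, iterated). So `r0 * T F = Σ_t T (F * I t) = T ((Σ_t F ∘ rotate (2t)) * I 0) =
Q * T (F * I 0) - T (G1 * I 0) + T (G0 * I 0)` with `G0 e = S (d0 e)`, `G1 e = S (d0 (e.rotate 1))`.
(4) For `i = 0, 1` let `J b e = 1` if `X (di e)` and `θ (di e) ≡ b`. `Gi` vanishes unless `X (di e)`
(as `ε` vanishes outside of `X`, and `X` is invariant under rotation), and then `Y e`. As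
`Gi (e.rotate 2) ≡ Gi e (mod Q)` by (1), `T (Gi * I 0) = Σ_b T (Gi * I 0 * J b) ≡ Σ_b T (Gi * I (-b) * J 0)
= T (Gi * J 0) (mod Q)` (sums over residues modulo `q`).
(5) `T (G0 * J 0) = T (h ∘ d0)` with `h x = S x` if `x.length = Q`, `X x`, `q ∣ θ x`, else `0`; it vanishes by
`wsum_d0` (with `π = MonoidHom.id Γ`, `J = 0`: `kerI ℤ (MonoidHom.id Γ) = ⊥`, and `DegLT` is trivial as
the kernel is trivial), since `h (1, ..., 1) = 0`. `T (G1 * J 0) = T (h ∘ d0 ∘ rotate 1) =
wsum A B Q (h ∘ d0) = 0` by `wsum_rotate_one` and `A * B = 1`. -/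
theorem core {n : ℕ} (A B : Matrix (Fin n) (Fin n) (MonoidAlgebra ℤ Γ)) (hAB : A * B = 1)
    (hBA : B * A = 1) (Q q r0 : ℕ) (hq : 0 < q) (hr0 : 0 < r0) (hQ : Q = q * r0)
    (ε F : List Γ → ℤ)
    (P1 : ∀ x : List Γ, x.length = Q → ∑ t ∈ Finset.range Q, ε (x.rotate t) = 0)
    (P2 : ∀ e : List Γ, e.length = 2 * Q →
      F (e.rotate 2) - F e = ε (d0 (e.rotate 1)) - ε (d0 e))
    (X Y : List Γ → Prop) (θ Θ : List Γ → ℤ)
    (hXr : ∀ x : List Γ, x.length = Q → X x → X (x.rotate 1))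
    (hYr : ∀ e : List Γ, e.length = 2 * Q → Y e → Y (e.rotate 2))
    (hθ : IsPh (fun x : List Γ => x.rotate 1) (fun x => x.length = Q ∧ X x) q θ)
    (hΘ : IsPh (fun x : List Γ => x.rotate 2) (fun e => e.length = 2 * Q ∧ Y e) q Θ)
    (hε : ∀ x : List Γ, x.length = Q → ¬ X x → ε x = 0)
    (hF : ∀ e : List Γ, e.length = 2 * Q → ¬ Y e → F e = 0)
    (h1 : ¬ X (List.replicate Q 1))
    (hXY0 : ∀ e : List Γ, e.length = 2 * Q → X (d0 e) → Y e)
    (hXY1 : ∀ e : List Γ, e.length = 2 * Q → X (d0 (e.rotate 1)) → Y e) :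
    (Q : ℤ) ∣ r0 * wsum B A Q F := by
  have hqz : NeZero q := ⟨hq.ne'⟩
  have hQ0 : 0 < Q := by rw [hQ]; exact Nat.mul_pos hq hr0
  obtain ⟨m, hm⟩ : ∃ m, Q = m + 1 := ⟨Q - 1, by omega⟩
  have hN2 : 2 * Q = 2 * (m + 1) := by rw [hm]
  -- (3)
  have hA : wsum B A Q F = ∑ a, wsum B A Q (fun e => F e * core_I q Y Θ a e) := by
    rw [← LemmaB.wsum_finsum]
    refine wsum_congr B A Q fun e he => ?_
    by_cases hY : Y e
    · rw [← Finset.mul_sum, core_I_sum Y Θ e hY, mul_one]
    · rw [hF e he hY]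
      simp
  have hB : ∀ t : ℕ, wsum B A Q (fun e => F e * core_I q Y Θ (t : ZMod q) e) =
      wsum B A Q (fun e => F (e.rotate (2 * t)) * core_I q Y Θ 0 e) := by
    intro t
    rw [← core_wrot B A Q (fun e => F e * core_I q Y Θ (t : ZMod q) e) t]
    refine wsum_congr B A Q fun e he => ?_
    have h2 : ∀ s : ℕ, core_I q Y Θ (s : ZMod q) (e.rotate (2 * s)) = core_I q Y Θ 0 e := by
      intro s
      induction s with
      | zero => simp
      | succ s ih =>
        have h3 := core_I_rot hN2 hYr hΘ (s : ZMod q) (e.rotate (2 * s))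
          (by rw [List.length_rotate, he])
        rw [List.rotate_rotate] at h3
        rw [← ih, ← h3]
        push_cast
        rfl
    rw [h2 t]
  have hC : (r0 : ℤ) * wsum B A Q F =
      ∑ t ∈ Finset.range Q, wsum B A Q (fun e => F (e.rotate (2 * t)) * core_I q Y Θ 0 e) := by
    rw [← Finset.sum_congr rfl fun t _ => hB t, hQ,
      core_count (fun a => wsum B A (q * r0) (fun e => F e * core_I q Y Θ a e)) r0, ← hQ, ← hA]
  have hD : (r0 : ℤ) * wsum B A Q F =
      Q * wsum B A Q (fun e => F e * core_I q Y Θ 0 e) +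
      ((-1) * wsum B A Q (fun e => core_S ε Q (d0 (e.rotate 1)) * core_I q Y Θ 0 e) +
      wsum B A Q (fun e => core_S ε Q (d0 e) * core_I q Y Θ 0 e)) := by
    rw [hC, ← LemmaB.wsum_finsum, ← wsum_smul, ← wsum_smul, ← wsum_add, ← wsum_add]
    refine wsum_congr B A Q fun e he => ?_
    rw [← Finset.sum_mul, core_F P2 e he]
    ring
  -- (4), (5)
  have hE0 := core_cmp A B Q q m hm ε P1 X Y θ Θ hXr hYr hθ hΘ hε d0
    (fun e he => length_d0 Q e he)
    (fun e he => by
      have h2 := d0_rotate Q e he 1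
      rwa [mul_one] at h2) hXY0
  have hE1 := core_cmp A B Q q m hm ε P1 X Y θ Θ hXr hYr hθ hΘ hε (fun e => d0 (e.rotate 1))
    (fun e he => length_d0 Q _ (by rw [List.length_rotate, he]))
    (fun e he => by
      have h2 := d0_rotate Q (e.rotate 1) (by rw [List.length_rotate, he]) 1
      have h3 : (e.rotate 2).rotate 1 = (e.rotate 1).rotate (2 * 1) := by
        rw [List.rotate_rotate, List.rotate_rotate]
      rw [h3, h2]) hXY1
  have hf : (fun x : List Γ => core_S ε Q x * core_I q X θ 0 x) (List.replicate Q 1) = 0 := by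
    change core_S ε Q (List.replicate Q 1) * core_I q X θ 0 (List.replicate Q 1) = 0
    rw [core_I_zero h1, mul_zero]
  have h5 := core_d0 A B hBA Q (fun x => core_S ε Q x * core_I q X θ 0 x) hf
  have h6 := core_d0 B A hAB Q (fun x => core_S ε Q x * core_I q X θ 0 x) hf
  have h7 := wsum_rotate_one B A Q (fun w => core_S ε Q (d0 w) * core_I q X θ 0 (d0 w))
  rw [h5] at hE0
  rw [h7, h6] at hE1
  rw [hD]
  refine dvd_add (dvd_mul_right _ _) (dvd_add (dvd_mul_of_dvd_right ?_ _) ?_)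
  · rw [← ZMod.intCast_zmod_eq_zero_iff_dvd, hE1, Int.cast_zero]
  · rw [← ZMod.intCast_zmod_eq_zero_iff_dvd, hE0, Int.cast_zero]

end Pool.Agent.Lib.MP_8f66f0_al_Chern
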