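import Pool.Agent.Lib.MP_8f66f0_al_Chern.SynGen

/-! # The super ring of a homogeneous cocycle. -/

set_option autoImplicit false
set_option linter.unusedSectionVars false
set_option linter.unusedVariables false

namespace Pool.Agent.Lib.MP_8f66f0_al_Chern

open Pool.Agent.Lib.MP_8f66f0_al_FinQ Pool.Agent.Lib.MP_8f66f0_al_Uni

universe u

section syn

variable {Γ : Type*}

/-- the sign of a word -/
noncomputable def syn_sgn (w : FreeMonoid Γ) : ℤ := (-1) ^ w.toList.length

lemma syn_sgn_mul (u v : FreeMonoid Γ) : syn_sgn (u * v) = syn_sgn u * syn_sgn v := by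
  unfold syn_sgn
  rw [FreeMonoid.toList_mul, List.length_append, pow_add]

lemma syn_sgn_sq (w : FreeMonoid Γ) : syn_sgn w * syn_sgn w = 1 := by
  unfold syn_sgn
  rw [← mul_pow]
  norm_num

/-- an additive map given on words -/
noncomputable def syn_ext {K : Type*} [Ring K] (T : FreeMonoid Γ → K) :
    MonoidAlgebra ℤ (FreeMonoid Γ) →+ K :=
  (Finsupp.liftAddHom fun w => (smulAddHom ℤ K).flip (T w)).comp
    (MonoidAlgebra.coeffAddEquiv (R := ℤ) (M := FreeMonoid Γ)).toAddMonoidHom

lemma syn_ext_single {K : Type*} [Ring K] (T : FreeMonoid Γ → K) (w : FreeMonoid Γ) (a : ℤ) :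
    syn_ext T (MonoidAlgebra.single w a) = a • T w := by
  change (Finsupp.liftAddHom fun w => (smulAddHom ℤ K).flip (T w))
    (MonoidAlgebra.single w a).coeff = _
  rw [MonoidAlgebra.coeff_single, Finsupp.liftAddHom_apply_single]
  rfl

/-- two additive maps which agree on the words -/
lemma syn_hom_ext {K : Type*} [AddCommGroup K] {T T' : MonoidAlgebra ℤ (FreeMonoid Γ) →+ K}
    (h : ∀ w : FreeMonoid Γ, T (MonoidAlgebra.single w 1) = T' (MonoidAlgebra.single w 1)) :
    T = T' := by
  refine MonoidAlgebra.addMonoidHom_ext fun w a => ?_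
  have e : MonoidAlgebra.single w a = a • (MonoidAlgebra.single w 1 : MonoidAlgebra ℤ (FreeMonoid Γ)) := by
    rw [MonoidAlgebra.smul_single, smul_eq_mul, mul_one]
  rw [e, map_zsmul, map_zsmul, h]

/-- the sign automorphism -/
noncomputable def syn_a : MonoidAlgebra ℤ (FreeMonoid Γ) →+ MonoidAlgebra ℤ (FreeMonoid Γ) :=
  syn_ext fun w => MonoidAlgebra.single w (syn_sgn w)

lemma syn_a_single (w : FreeMonoid Γ) (a : ℤ) :
    syn_a (MonoidAlgebra.single w a) = MonoidAlgebra.single w (a * syn_sgn w) := by
  unfold syn_a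
  rw [syn_ext_single, MonoidAlgebra.smul_single, smul_eq_mul]

lemma syn_a_one : syn_a (1 : MonoidAlgebra ℤ (FreeMonoid Γ)) = 1 := by
  rw [MonoidAlgebra.one_def, syn_a_single]
  simp [syn_sgn]

lemma syn_a_mul (x y : MonoidAlgebra ℤ (FreeMonoid Γ)) : syn_a (x * y) = syn_a x * syn_a y := by
  induction x using MonoidAlgebra.induction_linear with
  | zero => simp
  | add x x' hx hx' => rw [add_mul, map_add, map_add, add_mul, hx, hx']
  | single u a =>
    induction y using MonoidAlgebra.induction_linear with
    | zero => simp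
    | add y y' hy hy' => rw [mul_add, map_add, map_add, mul_add, hy, hy']
    | single v b =>
      rw [MonoidAlgebra.single_mul_single, syn_a_single, syn_a_single, syn_a_single,
        MonoidAlgebra.single_mul_single, syn_sgn_mul]
      congr 1
      ring

/-- the alternating sum of the words with one letter erased -/
noncomputable def syn_t (w : List Γ) : MonoidAlgebra ℤ (FreeMonoid Γ) :=
  ∑ i ∈ Finset.range w.length, MonoidAlgebra.single (FreeMonoid.ofList (w.eraseIdx i)) ((-1) ^ i)

/-- the odd derivation -/
noncomputable def syn_d : MonoidAlgebra ℤ (FreeMonoid Γ) →+ MonoidAlgebra ℤ (FreeMonoid Γ) :=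
  syn_ext fun w => syn_t w.toList

lemma syn_d_single (w : FreeMonoid Γ) (a : ℤ) :
    syn_d (MonoidAlgebra.single w a) = a • syn_t w.toList := syn_ext_single _ _ _

lemma syn_t_append (u v : List Γ) : syn_t (u ++ v) =
    syn_t u * MonoidAlgebra.single (FreeMonoid.ofList v) 1 +
      MonoidAlgebra.single (FreeMonoid.ofList u) ((-1) ^ u.length) * syn_t v := by
  unfold syn_t
  rw [List.length_append, Finset.sum_range_add, Finset.sum_mul, Finset.mul_sum]
  congr 1
  · refine Finset.sum_congr rfl fun i hi => ?_
    rw [Finset.mem_range] at hi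
    rw [List.eraseIdx_append_of_lt_length hi, MonoidAlgebra.single_mul_single, mul_one,
      FreeMonoid.ofList_append]
  · refine Finset.sum_congr rfl fun i _ => ?_
    rw [List.eraseIdx_append_of_length_le (Nat.le_add_right _ _), Nat.add_sub_cancel_left,
      MonoidAlgebra.single_mul_single, FreeMonoid.ofList_append, pow_add]

lemma syn_d_mul (x y : MonoidAlgebra ℤ (FreeMonoid Γ)) :
    syn_d (x * y) = syn_d x * y + syn_a x * syn_d y := by
  induction x using MonoidAlgebra.induction_linear with
  | zero => simp
  | add x x' hx hx' =>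
    rw [add_mul, map_add, map_add, map_add, add_mul, add_mul, hx, hx']
    abel
  | single u a =>
    induction y using MonoidAlgebra.induction_linear with
    | zero => simp
    | add y y' hy hy' =>
      rw [mul_add, map_add, map_add, mul_add, mul_add, hy, hy']
      abel
    | single v b =>
      rw [MonoidAlgebra.single_mul_single, syn_d_single, syn_d_single, syn_d_single,
        syn_a_single, FreeMonoid.toList_mul, syn_t_append]
      have e1 : MonoidAlgebra.single v b =
          b • (MonoidAlgebra.single v 1 : MonoidAlgebra ℤ (FreeMonoid Γ)) := by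
        rw [MonoidAlgebra.smul_single, smul_eq_mul, mul_one]
      have e2 : MonoidAlgebra.single u (a * syn_sgn u) =
          a • (MonoidAlgebra.single u (syn_sgn u) : MonoidAlgebra ℤ (FreeMonoid Γ)) := by
        rw [MonoidAlgebra.smul_single, smul_eq_mul]
      rw [e1, e2, FreeMonoid.ofList_toList, FreeMonoid.ofList_toList]
      simp only [smul_add, smul_mul_assoc, mul_smul_comm, smul_smul]
      unfold syn_sgn
      rw [mul_comm b a]

/-- The words of length `d`. -/
noncomputable def syn_w (Γ : Type*) (d : ℕ) : AddSubgroup (MonoidAlgebra ℤ (FreeMonoid Γ)) :=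
  AddSubgroup.closure {x | ∃ w : FreeMonoid Γ, w.toList.length = d ∧ x = MonoidAlgebra.single w 1}

lemma syn_w_mul {a b : ℕ} {x y : MonoidAlgebra ℤ (FreeMonoid Γ)} (hx : x ∈ syn_w Γ a)
    (hy : y ∈ syn_w Γ b) : x * y ∈ syn_w Γ (a + b) := by
  unfold syn_w at hx
  refine AddSubgroup.closure_induction (p := fun x _ => x * y ∈ syn_w Γ (a + b)) ?_ ?_ ?_ ?_ hx
  · rintro _ ⟨u, hu, rfl⟩
    unfold syn_w at hy
    refine AddSubgroup.closure_induction
      (p := fun y _ => MonoidAlgebra.single u 1 * y ∈ syn_w Γ (a + b)) ?_ ?_ ?_ ?_ hy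
    · rintro _ ⟨v, hv, rfl⟩
      refine AddSubgroup.subset_closure ⟨u * v, ?_, ?_⟩
      · rw [FreeMonoid.toList_mul, List.length_append, hu, hv]
      · rw [MonoidAlgebra.single_mul_single, mul_one]
    · rw [mul_zero]
      exact zero_mem _
    · intro y z _ _ h1 h2
      rw [mul_add]
      exact add_mem h1 h2
    · intro y _ h1
      rw [mul_neg]
      exact neg_mem h1
  · rw [zero_mul]
    exact zero_mem _
  · intro y z _ _ h1 h2
    rw [add_mul]
    exact add_mem h1 h2
  · intro y _ h1
    rw [neg_mul]
    exact neg_mem h1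

/-- factoring an additive map through a surjective ring homomorphism -/
lemma syn_factor {R K : Type*} [Ring R] [Ring K] (f : R →+* K) (hf : Function.Surjective f)
    (T : R →+ K) (hT : ∀ z, f z = 0 → T z = 0) : ∃ T' : K →+ K, ∀ x, T' (f x) = T x := by
  have key : ∀ x y, f x = f y → T x = T y := by
    intro x y hxy
    have h1 : T (x - y) = 0 := hT _ (by rw [map_sub, hxy, sub_self])
    rw [map_sub] at h1
    exact sub_eq_zero.mp h1
  refine ⟨AddMonoidHom.mk' (fun y => T (Function.surjInv hf y)) fun y y' => ?_, fun x => ?_⟩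
  · rw [← map_add]
    refine key _ _ ?_
    rw [map_add, Function.surjInv_eq hf, Function.surjInv_eq hf, Function.surjInv_eq hf]
  · change T (Function.surjInv hf (f x)) = T x
    exact key _ _ (Function.surjInv_eq hf (f x))

end syn

section syn2

variable {Γ : Type*} [Group Γ] {r : ℕ} {ω : Γ → List Γ → ℤ}

/-- the values of the functional on products -/
lemma syn_val (c : Γ) (u w v : FreeMonoid Γ) (t : ℤ) :
    lin (fun w : FreeMonoid Γ => ω c w.toList)
      (MonoidAlgebra.single u 1 * MonoidAlgebra.single w t * MonoidAlgebra.single v 1) =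
      t * ω c (u.toList ++ w.toList ++ v.toList) := by
  rw [MonoidAlgebra.single_mul_single, MonoidAlgebra.single_mul_single, lin_single, one_mul,
    mul_one, FreeMonoid.toList_mul, FreeMonoid.toList_mul]

lemma syn_lin_d (hω : IsHomCocycle r ω) (c : Γ) (x : MonoidAlgebra ℤ (FreeMonoid Γ)) :
    lin (fun w : FreeMonoid Γ => ω c w.toList) (syn_d x) = 0 := by
  have h : (Pool.Agent.Lib.MP_8f66f0_al_FinQ.lin (fun w : FreeMonoid Γ => ω c w.toList)).comp
      syn_d = 0 := by
    refine syn_hom_ext fun w => ?_
    rw [AddMonoidHom.comp_apply, syn_d_single, one_smul, AddMonoidHom.zero_apply]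
    unfold syn_t
    rw [map_sum, ← hω.cocycle c w.toList]
    refine Finset.sum_congr rfl fun i _ => ?_
    rw [lin_single, FreeMonoid.toList_ofList]
  exact DFunLike.congr_fun h x

lemma syn_lin_a (hω : IsHomCocycle r ω) (c : Γ) (a b : FreeMonoid Γ)
    (x : MonoidAlgebra ℤ (FreeMonoid Γ)) :
    lin (fun w : FreeMonoid Γ => ω c w.toList)
      (MonoidAlgebra.single a 1 * syn_a x * MonoidAlgebra.single b 1) =
    (-1) ^ (r + a.toList.length + b.toList.length) * lin (fun w : FreeMonoid Γ => ω c w.toList)
      (MonoidAlgebra.single a 1 * x * MonoidAlgebra.single b 1) := by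
  induction x using MonoidAlgebra.induction_linear with
  | zero => simp
  | add x x' hx hx' =>
    rw [map_add, mul_add, add_mul, map_add, hx, hx', mul_add, add_mul, map_add, mul_add]
  | single w t =>
    rw [syn_a_single, syn_val, syn_val]
    by_cases h : (a.toList ++ w.toList ++ b.toList).length = r
    · rw [List.length_append, List.length_append] at h
      have e : (-1 : ℤ) ^ (r + a.toList.length + b.toList.length) = syn_sgn w := by
        unfold syn_sgn
        have h2 : r + a.toList.length + b.toList.length =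
            w.toList.length + 2 * (a.toList.length + b.toList.length) := by omega
        rw [h2, pow_add, pow_mul]
        norm_num
      rw [e]
      ring
    · rw [hω.len c _ h]
      ring

end syn2

/-- PROOF. `M = FreeMonoid Γ`, `φ w = ω c w.toList`; `K`, `f`, `L` from `exists_syn`. Write `R` for
`MonoidAlgebra ℤ M`.
`L_f`: definition of `Lc`. `anti`: `f (nn a * nn b + nn b * nn a) = 0` by the criterion and
`alternating` (lists `u ++ a :: b :: v`). `sq`: by `anti`-type computation
`ω c (u ++ a :: a :: v) = - itself`, so `0`. `period`: criterion for `nn (c a) - nn a`, `periodic`.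
`α0 : R →+* R`: `w ↦ (-1)^(length w) w` (`MonoidAlgebra.lift` of a monoid homomorphism);
`D0 : R →+ R`: `w ↦ Σ_{i < length w} (-1)^i (w.eraseIdx i)`, and
`D0 (x * y) = D0 x * y + α0 x * D0 y` (check it on two words: `eraseIdx` of `++`).
`lin φ (D0 x) = 0` for all `x` (`cocycle`).
`α0` and `D0` descend to `K`: let `z` with `f z = 0`. For words `a b`,
`lin φ (a * α0 z * b) = ± lin φ (a * z * b) = 0`, the sign being `(-1)^(r - |a| - |b|)`, since only
words of total length `r` count (`len`); so `f (α0 z) = 0`. And
`0 = lin φ (D0 (a * z * b)) = lin φ (D0 a * z * b) ± lin φ (a * D0 z * b) ± lin φ (a * α0 z * D0 b)`, the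
first and the last term vanish, so `f (D0 z) = 0`. Define `α`, `D` on `K` by choosing preimages
(`f` is surjective) or via `QuotientAddGroup.lift`/`RingHom.liftOfSurjective`.
`D_nn`: `D0 (nn a) = 1`. `L_D`.
`deg d` = image under `f` of the additive subgroup of the combinations of words of length `d`. -/
theorem exists_super {Γ : Type u} [Group Γ] {r : ℕ} {ω : Γ → List Γ → ℤ}
    (hω : IsHomCocycle r ω) (c : Γ) :
    ∃ (K : Type u) (_ : Ring K) (f : MonoidAlgebra ℤ (FreeMonoid Γ) →+* K) (α : K →+* K)
      (D : K →+ K) (L : K →+ ℤ) (deg : ℕ → AddSubgroup K), Super r ω c K f α D L deg := by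
  obtain ⟨K, _, f, L, hf, hL, hker⟩ := exists_syn (fun w : FreeMonoid Γ => ω c w.toList)
  -- descent
  have ha : ∀ z, f z = 0 → f (syn_a z) = 0 := by
    intro z hz
    rw [hker] at hz ⊢
    intro a b
    rw [syn_lin_a hω, hz a b, mul_zero]
  have hd : ∀ z, f z = 0 → f (syn_d z) = 0 := by
    intro z hz
    rw [hker]
    intro a b
    have h1 := syn_lin_d hω c (MonoidAlgebra.single a 1 * z * MonoidAlgebra.single b 1)
    rw [syn_d_mul, syn_d_mul, syn_a_mul, add_mul, map_add, map_add] at h1
    have h2 : lin (fun w : FreeMonoid Γ => ω c w.toList)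
        (syn_d (MonoidAlgebra.single a 1) * z * MonoidAlgebra.single b 1) = 0 := by
      rw [← hL, map_mul f, map_mul f, hz, mul_zero, zero_mul, map_zero]
    have h3 : lin (fun w : FreeMonoid Γ => ω c w.toList)
        (syn_a (MonoidAlgebra.single a 1) * syn_a z * syn_d (MonoidAlgebra.single b 1)) = 0 := by
      rw [← hL, map_mul f, map_mul f, ha z hz, mul_zero, zero_mul, map_zero]
    rw [h2, h3, zero_add, add_zero, syn_a_single, one_mul] at h1
    have e : MonoidAlgebra.single a (syn_sgn a) =
        syn_sgn a • (MonoidAlgebra.single a 1 : MonoidAlgebra ℤ (FreeMonoid Γ)) := by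
      rw [MonoidAlgebra.smul_single, smul_eq_mul, mul_one]
    rw [e, smul_mul_assoc, smul_mul_assoc, map_zsmul, smul_eq_mul] at h1
    have h4 := congrArg (fun t => syn_sgn a * t) h1
    simp only [mul_zero, ← mul_assoc, syn_sgn_sq, one_mul] at h4
    exact h4
  obtain ⟨α', hα'⟩ := syn_factor f hf (f.toAddMonoidHom.comp syn_a) ha
  obtain ⟨D, hD⟩ := syn_factor f hf (f.toAddMonoidHom.comp syn_d) hd
  have hα'' : ∀ x, α' (f x) = f (syn_a x) := hα'
  have hD' : ∀ x, D (f x) = f (syn_d x) := hD
  let α : K →+* K :=
    { α' with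
      map_one' := by
        change α' 1 = 1
        rw [← map_one f, hα'', syn_a_one]
      map_mul' := fun x y => by
        obtain ⟨x, rfl⟩ := hf x
        obtain ⟨y, rfl⟩ := hf y
        change α' (f x * f y) = α' (f x) * α' (f y)
        rw [← map_mul, hα'', hα'', hα'', syn_a_mul, map_mul] }
  have hα : ∀ x, α (f x) = f (syn_a x) := hα'
  refine ⟨K, inferInstance, f, α, D, L, fun d => (syn_w Γ d).map f.toAddMonoidHom, ?_⟩
  refine
    { L_f := hL
      anti := ?_
      sq := ?_
      period := ?_
      α_nn := ?_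
      D_mul := ?_
      D_nn := ?_
      L_D := ?_
      one_deg := ?_
      mul_deg := ?_
      nn_deg := ?_
      L_deg := ?_ }
  · intro a b
    rw [eq_neg_iff_add_eq_zero, ← map_mul, ← map_mul, ← map_add, hker]
    intro u v
    unfold nn
    rw [MonoidAlgebra.single_mul_single, MonoidAlgebra.single_mul_single, mul_add, add_mul,
      map_add, mul_one, syn_val, syn_val, one_mul, one_mul]
    have h := hω.alternating c u.toList a b v.toList
    have e1 : u.toList ++ (FreeMonoid.of a * FreeMonoid.of b).toList ++ v.toList =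
        u.toList ++ a :: b :: v.toList := by
      rw [FreeMonoid.toList_mul, FreeMonoid.toList_of, FreeMonoid.toList_of]
      simp
    have e2 : u.toList ++ (FreeMonoid.of b * FreeMonoid.of a).toList ++ v.toList =
        u.toList ++ b :: a :: v.toList := by
      rw [FreeMonoid.toList_mul, FreeMonoid.toList_of, FreeMonoid.toList_of]
      simp
    rw [e1, e2, h]
    ring
  · intro a
    rw [← map_mul, hker]
    intro u v
    unfold nn
    rw [MonoidAlgebra.single_mul_single, mul_one, syn_val, one_mul]
    have h := hω.alternating c u.toList a a v.toList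
    have e1 : u.toList ++ (FreeMonoid.of a * FreeMonoid.of a).toList ++ v.toList =
        u.toList ++ a :: a :: v.toList := by
      rw [FreeMonoid.toList_mul, FreeMonoid.toList_of]
      simp
    rw [e1]
    omega
  · intro a
    rw [← sub_eq_zero, ← map_sub, hker]
    intro u v
    unfold nn
    rw [mul_sub, sub_mul, map_sub, syn_val, syn_val, one_mul, one_mul]
    have h := hω.periodic c u.toList a v.toList
    have e1 : ∀ g : Γ, u.toList ++ (FreeMonoid.of g).toList ++ v.toList =
        u.toList ++ g :: v.toList := by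
      intro g
      rw [FreeMonoid.toList_of]
      simp
    rw [e1, e1, h, sub_self]
  · intro a
    rw [hα]
    unfold nn
    rw [syn_a_single, ← map_neg]
    congr 1
    have : syn_sgn (FreeMonoid.of a) = -1 := by
      unfold syn_sgn
      rw [FreeMonoid.toList_of]
      simp
    rw [this, one_mul, ← MonoidAlgebra.single_neg]
  · intro x y
    obtain ⟨x, rfl⟩ := hf x
    obtain ⟨y, rfl⟩ := hf y
    rw [← map_mul, hD', hD', hD', hα, syn_d_mul, map_add, map_mul, map_mul]
  · intro a
    rw [hD']
    unfold nn
    rw [syn_d_single, one_smul, FreeMonoid.toList_of, ← map_one f]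
    congr 1
    unfold syn_t
    simp only [List.length_singleton, Finset.range_one, Finset.sum_singleton, pow_zero,
      List.eraseIdx_zero, List.tail_cons]
    rfl
  · intro x
    obtain ⟨x, rfl⟩ := hf x
    rw [hD', hL, syn_lin_d hω]
  · refine ⟨1, ?_, map_one f⟩
    refine AddSubgroup.subset_closure ⟨1, ?_, rfl⟩
    rw [FreeMonoid.toList_one]
    rfl
  · rintro a b _ _ ⟨x, hx, rfl⟩ ⟨y, hy, rfl⟩
    exact ⟨x * y, syn_w_mul hx hy, map_mul f x y⟩
  · intro a
    refine ⟨nn a, AddSubgroup.subset_closure ⟨FreeMonoid.of a, ?_, rfl⟩, rfl⟩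
    rw [FreeMonoid.toList_of]
    rfl
  · rintro d _ ⟨x, hx, rfl⟩ hdr
    change L (f x) = 0
    rw [hL]
    refine AddSubgroup.closure_induction
      (p := fun x _ => lin (fun w : FreeMonoid Γ => ω c w.toList) x = 0) ?_ ?_ ?_ ?_ hx
    · rintro _ ⟨w, hw, rfl⟩
      rw [lin_single, one_mul]
      exact hω.len c _ (by rw [hw]; exact hdr)
    · exact map_zero _
    · intro y z _ _ h1 h2
      rw [map_add, h1, h2, add_zero]
    · intro y _ h1
      rw [map_neg, h1, neg_zero]

end Pool.Agent.Lib.MP_8f66f0_al_Chern
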