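import Pool.Agent.Lib.MP_8f66f0_al_Chern.Vx
import Pool.Agent.Lib.MP_8f66f0_al_Chern.Abs
import Pool.Agent.Lib.MP_8f66f0_al_Chern.Syn

/-! # P1 and P2 for words. -/

set_option autoImplicit false
set_option linter.unusedSectionVars false
set_option linter.unusedVariables false

namespace Pool.Agent.Lib.MP_8f66f0_al_Chern

open Pool.Agent.Lib.MP_8f66f0_al_FinQ Pool.Agent.Lib.MP_8f66f0_al_Uni

universe u

variable {Γ : Type u} [Group Γ] {r : ℕ} {ω : Γ → List Γ → ℤ}

lemma pWords_super (hω : IsHomCocycle r ω) (c : Γ) :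
    ∃ (K : Type u) (_ : Ring K) (f : MonoidAlgebra ℤ (FreeMonoid Γ) →+* K) (α : K →+* K)
      (D : K →+ K) (L : K →+ ℤ) (deg : ℕ → AddSubgroup K), Super r ω c K f α D L deg :=
  exists_super hω c

/-- One rotation step for an expression compatible with translations. -/
lemma pWords_step (hω : IsHomCochain r ω)
    (Φ : (ℕ → MonoidAlgebra ℤ (FreeMonoid Γ)) → MonoidAlgebra ℤ (FreeMonoid Γ))
    (hΦ : ∀ (x : Γ) (N : ℕ → MonoidAlgebra ℤ (FreeMonoid Γ)),
      trans x (Φ N) = Φ (fun j => trans x (N j)))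
    (w : List Γ) :
    Lc ω (w.rotate 1).prod (Φ fun j => nn (vx (w.rotate 1) j)) =
      Lc ω w.prod (Φ fun j => nn (vx w (j + 1))) := by
  cases w with
  | nil =>
    have h : ∀ j : ℕ, vx ([] : List Γ) j = vx [] (j + 1) := by
      intro j
      simp [vx]
    simp only [List.rotate_nil]
    congr 2
    funext j
    rw [h j]
  | cons a w' =>
    have h1 : (fun j => nn (vx ((a :: w').rotate 1) j)) =
        fun j => trans a⁻¹ (nn (vx (a :: w') (j + 1))) := by
      funext j
      rw [trans_nn, vx_rotate_one]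
    have h2 : ((a :: w').rotate 1).prod = a⁻¹ * (a :: w').prod * a⁻¹⁻¹ := by
      rw [prod_rotate_one, inv_inv]
    rw [h1, h2, ← hΦ, Lc_trans hω]

/-- The rotation rule for an expression compatible with translations. -/
lemma pWords_shift (hω : IsHomCochain r ω)
    (Φ : (ℕ → MonoidAlgebra ℤ (FreeMonoid Γ)) → MonoidAlgebra ℤ (FreeMonoid Γ))
    (hΦ : ∀ (x : Γ) (N : ℕ → MonoidAlgebra ℤ (FreeMonoid Γ)),
      trans x (Φ N) = Φ (fun j => trans x (N j)))
    (w : List Γ) (t : ℕ) :
    Lc ω (w.rotate t).prod (Φ fun j => nn (vx (w.rotate t) j)) =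
      Lc ω w.prod (Φ fun j => nn (vx w (j + t))) := by
  induction t generalizing Φ with
  | zero => simp
  | succ t ih =>
    rw [← List.rotate_rotate, pWords_step hω Φ hΦ (w.rotate t)]
    have h := ih (fun N => Φ fun j => N (j + 1)) (fun x N => hΦ x _)
    simp only at h
    rw [h]
    congr 2
    funext j
    rw [add_assoc, add_comm 1 t]

/-- Expressions for the rotated word. PROOF: for `w = []` both sides agree (`n = 0`, all vertices
`1`). For `w = a :: w'`: `vx_rotate_one`, `prod_rotate_one`, `Lc_trans` with `x = a`, `trans_nn`,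
`map_exE`. -/
theorem eps_shift (hω : IsHomCochain r ω) (m n : ℕ) (w : List Γ) (t : ℕ) :
    Lc ω (w.rotate t).prod (exE m n fun j => nn (vx (w.rotate t) j)) =
      Lc ω w.prod (exE m n fun j => nn (vx w (j + t))) :=
  pWords_shift hω (fun N => exE m n N) (fun x N => map_exE (trans x) m n N) w t

theorem exF_shift (hω : IsHomCochain r ω) (m Q : ℕ) (w : List Γ) (t : ℕ) :
    Lc ω (w.rotate t).prod (exF m Q fun j => nn (vx (w.rotate t) j)) =
      Lc ω w.prod (exF m Q fun j => nn (vx w (j + t))) :=
  pWords_shift hω (fun N => exF m Q N) (fun x N => map_exF (trans x) m Q N) w t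

/-- (P1) PROOF. `eps_shift`, `exists_super`, `exE_sum` (periodicity: `vx_add` and `Super.period`),
`map_exE`, `Super.L_f`. The case `x = []` is trivial. -/
theorem eps_sum (hω : IsHomCocycle r ω) (m : ℕ) (x : List Γ) :
    ∑ t ∈ Finset.range x.length, eps ω m (x.rotate t) = 0 := by
  by_cases hx : x = []
  · subst hx
    simp
  obtain ⟨K, _, f, α, D, L, deg, S⟩ := pWords_super hω x.prod
  have h := exE_sum S m x.length (vx x) (fun j => by rw [vx_add x hx j, S.period])
  rw [← h]
  refine Finset.sum_congr rfl fun t _ => ?_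
  unfold eps
  rw [List.length_rotate, eps_shift hω.toIsHomCochain m x.length x t, ← S.L_f, map_exE]
  congr 2
  funext j
  rw [add_comm j t]

/-- (P2) PROOF. `exF_shift` with `t = 2`, `vx_d0`, `prod_d0`, `length_d0`, `eps_shift` with `t = 1`
(for `d0 (e.rotate 1)`: its vertices are the vertices `2 j` of `e.rotate 1`), `exF_diff`. For `Q = 0`
the word `e` is empty and everything is trivial. -/
theorem FF_diff (hω : IsHomCocycle r ω) (m Q : ℕ) (e : List Γ) (he : e.length = 2 * Q) :
    FF ω m Q (e.rotate 2) - FF ω m Q e = eps ω m (d0 (e.rotate 1)) - eps ω m (d0 e) := by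
  obtain ⟨K, _, f, α, D, L, deg, S⟩ := pWords_super hω e.prod
  have he1 : (e.rotate 1).length = 2 * Q := by rw [List.length_rotate, he]
  have hv : ∀ j, f (nn (vx e (j + 2 * Q))) = f (nn (vx e j)) := by
    intro j
    by_cases hQ : Q = 0
    · subst hQ
      simp
    · have hne : e ≠ [] := by
        intro h
        rw [h] at he
        simp at he
        omega
      rw [← he, vx_add e hne j, S.period]
  have h := exF_diff S m Q (vx e) hv
  have e1 : FF ω m Q (e.rotate 2) = L (exF m Q fun j => f (nn (vx e (j + 2)))) := by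
    unfold FF
    rw [exF_shift hω.toIsHomCochain m Q e 2, ← S.L_f, map_exF]
  have e2 : FF ω m Q e = L (exF m Q fun j => f (nn (vx e j))) := by
    unfold FF
    rw [← S.L_f, map_exF]
  have e3 : eps ω m (d0 (e.rotate 1)) = L (exE m Q fun j => f (nn (vx e (2 * j + 1)))) := by
    unfold eps
    rw [length_d0 Q (e.rotate 1) he1, prod_d0 Q (e.rotate 1) he1]
    have h1 : (fun j => nn (vx (d0 (e.rotate 1)) j)) = fun j => nn (vx (e.rotate 1) (2 * j)) := by
      funext j
      rw [vx_d0 Q (e.rotate 1) he1]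
    rw [h1]
    have h2 := pWords_shift hω.toIsHomCochain (fun N => exE m Q fun j => N (2 * j))
      (fun x N => map_exE (trans x) m Q _) e 1
    simp only at h2
    rw [h2, ← S.L_f, map_exE]
  have e4 : eps ω m (d0 e) = L (exE m Q fun j => f (nn (vx e (2 * j)))) := by
    unfold eps
    rw [length_d0 Q e he, prod_d0 Q e he]
    have h1 : (fun j => nn (vx (d0 e) j)) = fun j => nn (vx e (2 * j)) := by
      funext j
      rw [vx_d0 Q e he]
    rw [h1, ← S.L_f, map_exE]
  rw [e1, e2, e3, e4]
  exact h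

end Pool.Agent.Lib.MP_8f66f0_al_Chern
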