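import Pool.Agent.Lib.MP_8f66f0_al_Chern.Eval
import Pool.Agent.Lib.MP_8f66f0_al_Chern.Core
import Pool.Agent.Lib.MP_8f66f0_al_Chern.PWords
import Pool.Agent.Lib.MP_8f66f0_al_Chern.PhaseGen
import Pool.Agent.Lib.MP_8f66f0_al_Uni.Phase

/-! # Vanishing at a class which is not infinitely `p`-divisible. -/

set_option autoImplicit false
set_option linter.unusedSectionVars false
set_option linter.unusedVariables false

namespace Pool.Agent.Lib.MP_8f66f0_al_Chern

open Pool.Agent.Lib.MP_8f66f0_al_FinQ Pool.Agent.Lib.MP_8f66f0_al_Uni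

variable {Γ : Type*} [Group Γ] {ω : Γ → List Γ → ℤ} {n m : ℕ}

/-- If `x` has length `p^(K+j)`, is invariant under rotation by `i` and its product is conjugate to an
element which is not a `p^j`-th power, then `p^K ∣ i`.

PROOF. As `stab_of_roots` in `MP_8f66f0_al_Uni/Phase.lean`: `x` is invariant under rotation by
`p^l = gcd (i, p^(K+j))`; if `l < K` then `x` is the `p^(K+j-l)`-fold repetition of its first `p^l` letters
(`phase_repeat`), so its product is `z^(p^(K+j-l)) = (z^(p^(K-l)))^(p^j)`, and so is every conjugate. -/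
theorem stab_pow {p : ℕ} (hp : p.Prime) (j K : ℕ) (c0 : Γ) (hc : ∀ y : Γ, y ^ (p ^ j) ≠ c0)
    (x : List Γ) (hx : x.length = p ^ (K + j)) (hc0 : IsConj c0 x.prod) (i : ℕ)
    (hi : x.rotate i = x) : p ^ K ∣ i := by
  rcases (Nat.gcd_le_right i (pow_pos hp.pos (K + j))).lt_or_eq with hlt | heq
  · obtain ⟨l, hl, hlg⟩ := (Nat.dvd_prime_pow hp).1 (Nat.gcd_dvd_right i (p ^ (K + j)))
    by_cases hlK : K ≤ l
    · exact (pow_dvd_pow p hlK).trans (hlg ▸ Nat.gcd_dvd_left i (p ^ (K + j)))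
    · exfalso
      push Not at hlK
      obtain ⟨m', -, hm⟩ := Nat.exists_mul_mod_eq_gcd hlt
      have h1 : x.rotate (p ^ l) = x := by
        rw [← hlg, ← hm, ← hx, List.rotate_mod]
        exact phase_rotate_mul x i hi m'
      have h2 : x.length = p ^ (K + j - l) * p ^ l := by
        rw [hx, ← pow_add]
        congr 1
        omega
      have h3 := phase_repeat x (g := p ^ l) (m := p ^ (K + j - l)) (by
        rw [hx]
        exact Nat.pow_le_pow_right hp.pos hl) h2 h1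
      have h4 : x.prod = (x.take (p ^ l)).prod ^ (p ^ (K + j - l)) := by
        conv_lhs => rw [h3]
        exact phase_prod_flatten _ _
      have h5 : K + j - l = (K - l) + j := by omega
      rw [h4, h5, pow_add, pow_mul, isConj_iff] at hc0
      obtain ⟨u, hu⟩ := hc0
      apply hc (u⁻¹ * ((x.take (p ^ l)).prod ^ (p ^ (K - l))) * u)
      have h9 := conj_pow (a := u⁻¹) (b := (x.take (p ^ l)).prod ^ (p ^ (K - l))) (i := p ^ j)
      rw [inv_inv] at h9
      rw [h9, ← hu]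
      group
  · have h1 : p ^ (K + j) ∣ i := heq ▸ Nat.gcd_dvd_left i (p ^ (K + j))
    exact (pow_dvd_pow p (Nat.le_add_right K j)).trans h1

theorem classA_iterate_rotate {α : Type*} (i : ℕ) (x : List α) :
    (fun x : List α => x.rotate 1)^[i] x = x.rotate i := by
  induction i generalizing x with
  | zero => rw [Function.iterate_zero, id_eq, List.rotate_zero]
  | succ i ih =>
    rw [Function.iterate_succ_apply, ih, List.rotate_rotate, Nat.add_comm]

theorem classA_Lc_zero (c : Γ) (h : ∀ u, ω c u = 0) (z : MonoidAlgebra ℤ (FreeMonoid Γ)) :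
    Lc ω c z = 0 := by
  unfold Lc
  rw [lin_apply]
  unfold Finsupp.sum
  refine Finset.sum_eq_zero fun w _ => ?_
  show z.coeff w * ω c (FreeMonoid.toList w) = 0
  rw [h, mul_zero]

theorem classA_desc (m : ℕ) : (descPochhammer ℤ m).eval (-1) = (-1) ^ m * (m.factorial : ℤ) := by
  induction m with
  | zero => simp
  | succ m ih =>
    rw [descPochhammer_succ_eval, ih, Nat.factorial_succ]
    push_cast
    ring

theorem classA_descFactorial (Q m : ℕ) (hQ : 0 < Q) :
    (Q : ℤ) ∣ ((Q - 1).descFactorial m : ℤ) - (-1) ^ m * (m.factorial : ℤ) := by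
  have h1 := Polynomial.sub_dvd_eval_sub (((Q - 1 : ℕ) : ℤ)) (-1) (descPochhammer ℤ m)
  rw [descPochhammer_eval_eq_descFactorial, classA_desc] at h1
  have h2 : (((Q - 1 : ℕ) : ℤ)) - (-1) = Q := by
    rw [Nat.cast_sub hQ]
    push_cast
    ring
  rwa [h2] at h1

theorem classA_zero {p : ℕ} (hp : p.Prime) (z : ℤ) (h : ∀ K : ℕ, ((p ^ K : ℕ) : ℤ) ∣ z) :
    z = 0 := by
  apply Int.eq_zero_of_abs_lt_dvd (h z.natAbs)
  rw [Int.abs_eq_natAbs]
  exact_mod_cast Nat.lt_pow_self hp.one_lt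

/-- The divisibility for one `K`. -/
theorem classA_dvd (hω : IsHomCocycle (2 * (m + 1)) ω)
    (A B : Matrix (Fin n) (Fin n) (MonoidAlgebra ℤ Γ)) (hAB : A * B = 1) (hBA : B * A = 1)
    {p : ℕ} (hp : p.Prime) (j : ℕ) (c0 : Γ) (hc : ∀ y : Γ, y ^ (p ^ j) ≠ c0)
    (hsupp : ∀ c u, ¬ IsConj c0 c → ω c u = 0) (K : ℕ) :
    ((p ^ K : ℕ) : ℤ) ∣ (m.factorial : ℤ) * chern m A B ω := by
  have hQpos : 0 < p ^ (K + j) := pow_pos hp.pos _
  obtain ⟨θ, hθ⟩ := exists_ph (fun x : List Γ => x.rotate 1)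
    (fun x => x.length = p ^ (K + j) ∧ IsConj c0 x.prod) (p ^ (K + j)) (p ^ K) hQpos
    (pow_pos hp.pos _) (pow_dvd_pow p (Nat.le_add_right K j))
    (fun x hx => ⟨by rw [List.length_rotate]; exact hx.1,
      hx.2.trans (phase_isConj_rotate x 1)⟩)
    (fun x hx => by
      rw [classA_iterate_rotate, ← hx.1, List.rotate_length])
    (fun x hx i hi => by
      rw [classA_iterate_rotate] at hi
      exact stab_pow hp j K c0 hc x hx.1 hx.2 i hi)
  have hΘ : IsPh (fun x : List Γ => x.rotate 2)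
      (fun e => e.length = 2 * p ^ (K + j) ∧ IsConj c0 e.prod) (p ^ K) (fun e => θ (d0 e)) := by
    refine ⟨fun e => hθ.nonneg _, fun e => hθ.lt _, ?_⟩
    rintro e ⟨he, hec⟩
    have h1 := d0_rotate (p ^ (K + j)) e he 1
    rw [mul_one] at h1
    show ((p ^ K : ℕ) : ℤ) ∣ θ (d0 (e.rotate 2)) - θ (d0 e) - 1
    rw [h1]
    exact hθ.shift (d0 e) ⟨length_d0 _ e he, by rw [prod_d0 _ e he]; exact hec⟩
  have hcore := core A B hAB hBA (p ^ (K + j)) (p ^ K) (p ^ j) (pow_pos hp.pos _)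
    (pow_pos hp.pos _) (pow_add p K j) (eps ω m) (FF ω m (p ^ (K + j)))
    (fun x hx => by
      have := eps_sum hω m x
      rwa [hx] at this)
    (fun e he => FF_diff hω m _ e he)
    (fun x => IsConj c0 x.prod) (fun e => IsConj c0 e.prod) θ (fun e => θ (d0 e))
    (fun x _ hx => hx.trans (phase_isConj_rotate x 1))
    (fun e _ he => he.trans (phase_isConj_rotate e 2))
    hθ hΘ
    (fun x _ hx => classA_Lc_zero _ (fun u => hsupp _ u hx) _)
    (fun e _ he => classA_Lc_zero _ (fun u => hsupp _ u he) _)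
    (by
      intro h
      rw [List.prod_replicate, one_pow, isConj_comm, isConj_one_right] at h
      exact hc 1 (by rw [one_pow, h]))
    (fun e he hX => by rwa [prod_d0 _ e he] at hX)
    (fun e he hX => by
      have he' : (e.rotate 1).length = 2 * p ^ (K + j) := by rw [List.length_rotate]; exact he
      rw [prod_d0 _ _ he'] at hX
      exact hX.trans (phase_isConj_rotate e 1).symm)
  rw [wsum_FF hω A B hAB hBA _ hQpos] at hcore
  have h1 : ((p ^ K : ℕ) : ℤ) ∣
      ((p ^ (K + j) - 1).descFactorial m : ℤ) * chern m A B ω := by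
    have h2 : ((p ^ (K + j) : ℕ) : ℤ) = ((p ^ j : ℕ) : ℤ) * ((p ^ K : ℕ) : ℤ) := by
      rw [pow_add]
      push_cast
      ring
    rw [h2] at hcore
    exact Int.dvd_of_mul_dvd_mul_left (by exact_mod_cast (pow_pos hp.pos j).ne') hcore
  have h3 : ((p ^ K : ℕ) : ℤ) ∣
      ((p ^ (K + j) - 1).descFactorial m : ℤ) - (-1) ^ m * (m.factorial : ℤ) := by
    refine dvd_trans ?_ (classA_descFactorial (p ^ (K + j)) m hQpos)
    exact_mod_cast pow_dvd_pow p (Nat.le_add_right K j)
  have h4 : ((p ^ K : ℕ) : ℤ) ∣ (-1) ^ m * ((m.factorial : ℤ) * chern m A B ω) := by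
    have h5 := dvd_sub h1 (h3.mul_right (chern m A B ω))
    have h6 : ((p ^ (K + j) - 1).descFactorial m : ℤ) * chern m A B ω -
        (((p ^ (K + j) - 1).descFactorial m : ℤ) - (-1) ^ m * (m.factorial : ℤ)) *
          chern m A B ω = (-1) ^ m * ((m.factorial : ℤ) * chern m A B ω) := by ring
    rwa [h6] at h5
  rcases neg_one_pow_eq_or ℤ m with h | h
  · rwa [h, one_mul] at h4
  · rw [h, neg_one_mul] at h4
    exact (dvd_neg).1 h4

/-- PROOF. For every `K`: `Q = p^(K+j)`, `q = p^K`, `r0 = p^j`, `X x = IsConj c0 x.prod`, `Y` the same;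
`θ` from `exists_ph` (`σ = rotate 1`, `(rotate 1)^[i] = rotate i`) and `stab_pow`; `Θ = θ ∘ d0`
(`d0_rotate`, `length_d0`, `prod_d0`). `core` with `ε = eps ω m`, `F = FF ω m Q` (`eps_sum`, `FF_diff`; both
vanish outside the class by `hsupp`, since `Lc ω c = 0` then); `c0 ≠ 1` as `1 = 1^(p^j)`. So with `wsum_FF`:
`p^K ∣ (Q-1).descFactorial m * chern`. As `(Q-1) (Q-2) ... (Q-m) ≡ (-1)^m m! (mod p^K)`,
`p^K ∣ m! * chern` for all `K`, so `m! * chern = 0`. -/
theorem classA (hω : IsHomCocycle (2 * (m + 1)) ω)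
    (A B : Matrix (Fin n) (Fin n) (MonoidAlgebra ℤ Γ)) (hAB : A * B = 1) (hBA : B * A = 1)
    {p : ℕ} (hp : p.Prime) (j : ℕ) (c0 : Γ) (hc : ∀ y : Γ, y ^ (p ^ j) ≠ c0)
    (hsupp : ∀ c u, ¬ IsConj c0 c → ω c u = 0) : chern m A B ω = 0 := by
  have h1 := classA_zero hp _ (classA_dvd hω A B hAB hBA hp j c0 hc hsupp)
  rcases mul_eq_zero.1 h1 with h | h
  · exact absurd (by exact_mod_cast h) (Nat.factorial_ne_zero m)
  · exact h

end Pool.Agent.Lib.MP_8f66f0_al_Chern
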