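import Pool.Agent.Lib.MP_8f66f0_al_Chern.Eval
import Pool.Agent.Lib.MP_8f66f0_al_Chern.Core
import Pool.Agent.Lib.MP_8f66f0_al_Chern.PWords
import Pool.Agent.Lib.MP_8f66f0_al_Chern.PhaseGen
import Pool.Agent.Lib.MP_8f66f0_al_Uni.Phase

/-! # Vanishing at the class of the identity. -/

set_option autoImplicit false
set_option linter.unusedSectionVars false
set_option linter.unusedVariables false

namespace Pool.Agent.Lib.MP_8f66f0_al_Chern

open Pool.Agent.Lib.MP_8f66f0_al_FinQ Pool.Agent.Lib.MP_8f66f0_al_Uni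

universe u

variable {Γ : Type u} [Group Γ] {ω : Γ → List Γ → ℤ} {n m : ℕ}

section aux

variable {K : Type*} [Ring K]

lemma classB_even (N : ℕ → K) (hN : ∀ j, N (j + 2) = N j) (j : ℕ) : N (2 * j) = N 0 := by
  induction j with
  | zero => rfl
  | succ j ih =>
    have h : 2 * (j + 1) = 2 * j + 2 := by ring
    rw [h, hN, ih]

lemma classB_odd (N : ℕ → K) (hN : ∀ j, N (j + 2) = N j) (j : ℕ) : N (2 * j + 1) = N 1 := by
  induction j with
  | zero => rfl
  | succ j ih =>
    have h : 2 * (j + 1) + 1 = 2 * j + 1 + 2 := by ring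
    rw [h, hN, ih]

lemma classB_pg (N : ℕ → K) (hN : ∀ j, N (j + 2) = N j) (hab : N 0 * N 1 = - (N 1 * N 0))
    (p : ℕ) : pg N (2 * p) = 0 := by
  induction p with
  | zero => simp [pg]
  | succ p ih =>
    have h : 2 * (p + 1) = 2 * p + 1 + 1 := by ring
    unfold pg at ih ⊢
    rw [h, Finset.sum_range_succ, Finset.sum_range_succ, ih, hN, classB_odd N hN,
      classB_even N hN, hab]
    abel

lemma classB_tri (N : ℕ → K) (hN : ∀ j, N (j + 2) = N j) (hab : N 0 * N 1 = - (N 1 * N 0))
    (haa : N 0 * N 0 = 0) (p : ℕ) : tri N p = 0 := by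
  unfold tri
  refine Finset.sum_eq_zero fun t _ => ?_
  rw [hN, classB_odd N hN, classB_even N hN, hab, neg_mul, mul_assoc, haa, mul_zero, neg_zero]

lemma classB_hmt (N : ℕ → K) (hN : ∀ j, N (j + 2) = N j) (hab : N 0 * N 1 = - (N 1 * N 0))
    (haa : N 0 * N 0 = 0) (m p : ℕ) : hmt m p N = 0 := by
  unfold hmt
  rw [classB_tri N hN hab haa, zero_mul]

lemma classB_exF (N : ℕ → K) (hN : ∀ j, N (j + 2) = N j) (hab : N 0 * N 1 = - (N 1 * N 0))
    (haa : N 0 * N 0 = 0) (hbb : N 1 * N 1 = 0) {m : ℕ} (hm : 0 < m) (p : ℕ) :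
    exF m p N = 0 := by
  have hba : N 1 * N 0 = - (N 0 * N 1) := by rw [hab, neg_neg]
  have h1 : hmt m p (fun j => N (j + 1)) = 0 := by
    refine classB_hmt (fun j => N (j + 1)) (fun j => ?_) ?_ hbb m p
    · show N (j + 2 + 1) = N (j + 1)
      rw [show j + 2 + 1 = j + 1 + 2 by ring, hN]
    · show N 1 * N 2 = - (N 2 * N 1)
      rw [show N 2 = N 0 from hN 0]
      exact hba
  unfold exF exE
  rw [classB_pg N hN hab, classB_hmt N hN hab haa, h1, zero_pow hm.ne', mul_zero, mul_zero,
    mul_zero, add_zero, sub_zero]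

end aux

lemma classB_take (h g : Γ) (hhg : h * g = 1) (p : ℕ) : ∀ j, j < 2 * p →
    (((List.replicate p [h, g]).flatten).take j).prod = if j % 2 = 0 then 1 else h := by
  induction p with
  | zero => intro j hj; omega
  | succ p ih =>
    intro j hj
    have e1 : (List.replicate (p + 1) [h, g]).flatten =
        h :: g :: (List.replicate p [h, g]).flatten := by
      rw [List.replicate_succ, List.flatten_cons]
      rfl
    rw [e1]
    match j, hj with
    | 0, _ => simp
    | 1, _ => simp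
    | j + 2, hj =>
      rw [List.take_succ_cons, List.take_succ_cons, List.prod_cons, List.prod_cons, ← mul_assoc,
        hhg, one_mul, ih j (by omega), Nat.add_mod_right]

lemma classB_vx (h g : Γ) (hhg : h * g = 1) {p : ℕ} (hp : 0 < p) (j : ℕ) :
    vx (List.replicate p [h, g]).flatten j = if j % 2 = 0 then 1 else h := by
  have hl : (List.replicate p [h, g]).flatten.length = 2 * p := by
    rw [List.length_flatten, List.map_replicate, List.sum_replicate, smul_eq_mul]
    simp [mul_comm]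
  unfold vx
  rw [phase_prod_flatten, hl, classB_take h g hhg p _ (Nat.mod_lt _ (by omega))]
  have h2 : [h, g].prod = 1 := by simpa using hhg
  rw [h2, one_pow, one_pow, one_mul]
  have h3 : j % (2 * p) % 2 = j % 2 := Nat.mod_mod_of_dvd j (dvd_mul_right 2 p)
  rw [h3]

lemma classB_lc {c : Γ} (hsupp : ∀ u, ω c u = 0) (z : MonoidAlgebra ℤ (FreeMonoid Γ)) :
    Lc ω c z = 0 := by
  unfold Lc
  have h : (fun w : FreeMonoid Γ => ω c w.toList) = fun _ => 0 := by
    funext w
    exact hsupp _
  rw [h]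
  induction z using MonoidAlgebra.induction_linear with
  | zero => exact map_zero _
  | add x y hx hy => rw [map_add, hx, hy, add_zero]
  | single a b => rw [lin_single]; simp

/-- PROOF. `x = replicate p g` (`x.rotate 1 = x`), `g^p = 1`, so `g = 1` and all vertices are `1`; in the super ring
of `exists_super` at `c = 1`, `f (nn 1) * f (nn 1) = 0`. -/
theorem eps_fixed (hω : IsHomCocycle (2 * (m + 1)) ω) {p : ℕ} (hp : p.Prime)
    (ht : ∀ g : Γ, g ^ p = 1 → g = 1) (x : List Γ) (hx : x.length = p) (h1 : x.prod = 1)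
    (hr : x.rotate 1 = x) : eps ω m x = 0 := by
  have h2 := phase_repeat x (g := 1) (m := p) (by rw [hx]; exact hp.one_le) (by rw [hx, mul_one]) hr
  have h3 : (x.take 1).prod = 1 := by
    apply ht
    rw [← phase_prod_flatten, ← h2]
    exact h1
  have h4 : x.take 1 = [1] := by
    match x, hx with
    | [], hx => exact absurd hx.symm hp.pos.ne'
    | a :: x, _ =>
      rw [List.take_succ_cons, List.take_zero] at h3 ⊢
      rw [List.prod_singleton] at h3
      rw [h3]
  rw [h4] at h2
  have h5 : ∀ a ∈ x, a = 1 := by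
    intro a ha
    rw [h2] at ha
    simp only [List.mem_flatten, List.mem_replicate] at ha
    obtain ⟨l, ⟨_, rfl⟩, hl⟩ := ha
    simpa using hl
  have h6 : ∀ j, vx x j = 1 := by
    intro j
    unfold vx
    rw [h1, one_pow, one_mul]
    exact List.prod_eq_one fun a ha => h5 a (List.mem_of_mem_take ha)
  obtain ⟨K, _, f, α, D, L, deg, hS⟩ : ∃ (K : Type u) (_ : Ring K)
      (f : MonoidAlgebra ℤ (FreeMonoid Γ) →+* K) (α : K →+* K)
      (D : K →+ K) (L : K →+ ℤ) (deg : ℕ → AddSubgroup K),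
      Super (2 * (m + 1)) ω 1 K f α D L deg := exists_super hω 1
  unfold eps
  rw [h1, ← hS.L_f]
  have h7 : f (exE m x.length fun j => nn (vx x j)) = 0 := by
    rw [map_exE]
    unfold exE
    simp only [h6, hS.sq, zero_mul]
  rw [h7, map_zero]

/-- PROOF. `e` is the `p`-fold repetition of `[h, g]` (`e.rotate 2 = e`; `phase_repeat`), `(h g)^p = 1`, so `h g = 1`
and `vx e (2j) = 1`, `vx e (2j+1) = h`. In the super ring at `c = 1` with `a = f (nn 1)`, `b = f (nn h)`:
`pg N (2p) = p (a b + b a) = 0`, `pg (N (2j)) p = p a a = 0`, `tri = p a b a = 0`, and the same for the shifted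
sequence; as `0 < m` all terms of `exF` vanish. -/
theorem FF_fixed (hω : IsHomCocycle (2 * (m + 1)) ω) (hm : 0 < m) {p : ℕ} (hp : p.Prime)
    (ht : ∀ g : Γ, g ^ p = 1 → g = 1) (e : List Γ) (he : e.length = 2 * p) (h1 : e.prod = 1)
    (hr : e.rotate 2 = e) : FF ω m p e = 0 := by
  have h2 := phase_repeat e (g := 2) (m := p) (by
    rw [he]; exact Nat.le_mul_of_pos_right 2 hp.pos) (by rw [he, mul_comm]) hr
  have h3 : (e.take 2).prod = 1 := by
    apply ht
    rw [← phase_prod_flatten, ← h2]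
    exact h1
  obtain ⟨h, g, h4⟩ : ∃ h g, e.take 2 = [h, g] := by
    match e, he with
    | [], he => exact absurd he.symm (by have := hp.pos; simp; omega)
    | [a], he => exact absurd he (by have := hp.pos; simp; omega)
    | a :: b :: e, _ => exact ⟨a, b, rfl⟩
  rw [h4] at h2 h3
  have hhg : h * g = 1 := by simpa using h3
  have h6 : ∀ j, vx e j = if j % 2 = 0 then 1 else h := by
    intro j
    rw [h2]
    exact classB_vx h g hhg hp.pos j
  obtain ⟨K, _, f, α, D, L, deg, hS⟩ : ∃ (K : Type u) (_ : Ring K)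
      (f : MonoidAlgebra ℤ (FreeMonoid Γ) →+* K) (α : K →+* K)
      (D : K →+ K) (L : K →+ ℤ) (deg : ℕ → AddSubgroup K),
      Super (2 * (m + 1)) ω 1 K f α D L deg := exists_super hω 1
  unfold FF
  rw [h1, ← hS.L_f]
  have h7 : f (exF m p fun j => nn (vx e j)) = 0 := by
    rw [map_exF]
    refine classB_exF _ (fun j => ?_) ?_ ?_ ?_ hm p
    · show f (nn (vx e (j + 2))) = f (nn (vx e j))
      rw [h6, h6, Nat.add_mod_right]
    · exact hS.anti _ _
    · exact hS.sq _
    · exact hS.sq _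
  rw [h7, map_zero]

lemma classB_prod_rotate (x : List Γ) (j : ℕ) : (x.rotate j).prod = 1 ↔ x.prod = 1 := by
  have h := phase_isConj_rotate x j
  constructor
  · intro h1
    rw [h1] at h
    exact isConj_one_left.1 h
  · intro h1
    rw [h1] at h
    exact isConj_one_right.1 h

lemma classB_iter (k : ℕ) (x : List Γ) (i : ℕ) :
    (fun x : List Γ => x.rotate k)^[i] x = x.rotate (k * i) := by
  induction i with
  | zero => rw [Function.iterate_zero, id, mul_zero, List.rotate_zero]
  | succ i ih => rw [Function.iterate_succ_apply', ih, List.rotate_rotate, Nat.mul_succ]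

/-- If the word is fixed by a rotation by `k i` with `i` prime to `p` then it is fixed by the
rotation by `k`. -/
lemma classB_stab {p : ℕ} (hp : p.Prime) (k : ℕ) (x : List Γ) (hx : x.length = k * p)
    (i : ℕ) (hi : x.rotate (k * i) = x) (hpi : ¬ p ∣ i) : x.rotate k = x := by
  have hc : Nat.gcd i p = 1 := ((Nat.Prime.coprime_iff_not_dvd hp).2 hpi).symm
  obtain ⟨t, -, htm⟩ := Nat.exists_mul_mod_eq_gcd (n := i) (k := p) (by rw [hc]; exact hp.one_lt)
  rw [hc] at htm
  have h1 := phase_rotate_mul x (k * i) hi t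
  rw [← List.rotate_mod, hx, mul_assoc, Nat.mul_mod_mul_left, htm, mul_one] at h1
  exact h1

lemma classB_dvd (hω : IsHomCocycle (2 * (m + 1)) ω) (hm : 0 < m)
    (A B : Matrix (Fin n) (Fin n) (MonoidAlgebra ℤ Γ)) (hAB : A * B = 1) (hBA : B * A = 1)
    {p : ℕ} (hp : p.Prime) (ht : ∀ g : Γ, g ^ p = 1 → g = 1) (hmp : m < p)
    (hsupp : ∀ c u, c ≠ 1 → ω c u = 0) : (p : ℤ) ∣ chern m A B ω := by
  obtain ⟨θ, hθ⟩ := exists_ph (fun x : List Γ => x.rotate 1)
    (fun x => x.length = p ∧ (x.prod = 1 ∧ x.rotate 1 ≠ x)) p p hp.pos hp.pos dvd_rfl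
    (by
      rintro x ⟨hx, hx1, hx2⟩
      refine ⟨by rw [List.length_rotate, hx], (classB_prod_rotate x 1).2 hx1, fun h => hx2 ?_⟩
      exact List.rotate_injective 1 h)
    (by
      rintro x ⟨hx, -, -⟩
      rw [classB_iter, one_mul, ← hx, List.rotate_length])
    (by
      rintro x ⟨hx, -, hx2⟩ i hi
      rw [classB_iter] at hi
      by_contra hpi
      exact hx2 (classB_stab hp 1 x (by rw [hx, one_mul]) i hi hpi))
  obtain ⟨Θ, hΘ⟩ := exists_ph (fun x : List Γ => x.rotate 2)
    (fun x => x.length = 2 * p ∧ (x.prod = 1 ∧ x.rotate 2 ≠ x)) p p hp.pos hp.pos dvd_rfl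
    (by
      rintro x ⟨hx, hx1, hx2⟩
      refine ⟨by rw [List.length_rotate, hx], (classB_prod_rotate x 2).2 hx1, fun h => hx2 ?_⟩
      exact List.rotate_injective 2 h)
    (by
      rintro x ⟨hx, -, -⟩
      rw [classB_iter, ← hx, List.rotate_length])
    (by
      rintro x ⟨hx, -, hx2⟩ i hi
      rw [classB_iter] at hi
      by_contra hpi
      exact hx2 (classB_stab hp 2 x hx i hi hpi))
  have key := core A B hAB hBA p p 1 hp.pos one_pos (mul_one p).symm (eps ω m) (FF ω m p)
    (fun x hx => by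
      have h := eps_sum hω m x
      rw [hx] at h
      exact h)
    (fun e he => FF_diff hω m p e he)
    (fun x => x.prod = 1 ∧ x.rotate 1 ≠ x) (fun e => e.prod = 1 ∧ e.rotate 2 ≠ e) θ Θ
    (by
      rintro x hx ⟨hx1, hx2⟩
      exact ⟨(classB_prod_rotate x 1).2 hx1, fun h => hx2 (List.rotate_injective 1 h)⟩)
    (by
      rintro x hx ⟨hx1, hx2⟩
      exact ⟨(classB_prod_rotate x 2).2 hx1, fun h => hx2 (List.rotate_injective 2 h)⟩)
    hθ hΘ
    (by
      intro x hx hX
      by_cases h1 : x.prod = 1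
      · by_cases h2 : x.rotate 1 = x
        · exact eps_fixed hω hp ht x hx h1 h2
        · exact absurd ⟨h1, h2⟩ hX
      · exact classB_lc (fun u => hsupp _ u h1) _)
    (by
      intro x hx hX
      by_cases h1 : x.prod = 1
      · by_cases h2 : x.rotate 2 = x
        · exact FF_fixed hω hm hp ht x hx h1 h2
        · exact absurd ⟨h1, h2⟩ hX
      · exact classB_lc (fun u => hsupp _ u h1) _)
    (by
      rintro ⟨-, h⟩
      exact h (List.rotate_replicate _ _ _))
    (by
      rintro e he ⟨h1, h2⟩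
      rw [prod_d0 p e he] at h1
      refine ⟨h1, fun h3 => h2 ?_⟩
      have h4 := d0_rotate p e he 1
      rw [mul_one, h3] at h4
      exact h4.symm)
    (by
      rintro e he ⟨h1, h2⟩
      have he1 : (e.rotate 1).length = 2 * p := by rw [List.length_rotate, he]
      rw [prod_d0 p _ he1] at h1
      refine ⟨(classB_prod_rotate e 1).1 h1, fun h3 => h2 ?_⟩
      have h4 := d0_rotate p _ he1 1
      rw [mul_one, List.rotate_rotate, add_comm 1 2, ← List.rotate_rotate, h3] at h4
      exact h4.symm)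
  rw [Nat.cast_one, one_mul, wsum_FF hω A B hAB hBA p hp.pos] at key
  rcases (Nat.prime_iff_prime_int.1 hp).dvd_or_dvd key with h | h
  · exfalso
    have h1 : p ∣ (p - 1).descFactorial m := by exact_mod_cast h
    have h2 := Nat.factorial_mul_descFactorial (n := p - 1) (k := m) (by omega)
    have h3 : p ∣ (p - 1).factorial := by
      rw [← h2]
      exact Dvd.dvd.mul_left h1 _
    have h4 := (Nat.Prime.dvd_factorial hp).1 h3
    have := hp.pos
    omega
  · exact h

/-- PROOF. Let `p > m` be one of these primes: `Q = q = p`, `r0 = 1`, `X x = (x.prod = 1 ∧ x.rotate 1 ≠ x)`,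
`Y e = (e.prod = 1 ∧ e.rotate 2 ≠ e)`. Phases from `exists_ph` (`σ = rotate 1` on `X`, `σ = rotate 2` on `Y`,
`Q = p`): if `σ^[i] x = x` and `p ∤ i` then, as `σ^[p] x = x`, `σ x = x` (Bezout). `core` with `eps`, `FF`:
outside `X`, `Y` they vanish by `eps_fixed`, `FF_fixed` and `hsupp` (`Lc ω c = 0` for `c ≠ 1`). `X (d0 e) → Y e`:
if `e.rotate 2 = e` then `(d0 e).rotate 1 = d0 e` (`d0_rotate`); `X (d0 (e.rotate 1)) → Y e` the same
(`prod_rotate`). So `p ∣ (p-1).descFactorial m * chern` and `p` does not divide the first factor. A number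
divisible by infinitely many primes is `0`. -/
theorem classB (hω : IsHomCocycle (2 * (m + 1)) ω) (hm : 0 < m)
    (A B : Matrix (Fin n) (Fin n) (MonoidAlgebra ℤ Γ)) (hAB : A * B = 1) (hBA : B * A = 1)
    (hΓ : {p : ℕ | p.Prime ∧ ∀ g : Γ, g ^ p = 1 → g = 1}.Infinite)
    (hsupp : ∀ c u, c ≠ 1 → ω c u = 0) : chern m A B ω = 0 := by
  obtain ⟨p, ⟨hp, ht⟩, hlt⟩ := hΓ.exists_gt (m + (chern m A B ω).natAbs)
  have h1 := classB_dvd hω hm A B hAB hBA hp ht (by omega) hsupp
  refine Int.eq_zero_of_abs_lt_dvd h1 ?_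
  rw [Int.abs_eq_natAbs]
  exact_mod_cast (by omega : (chern m A B ω).natAbs < p)

end Pool.Agent.Lib.MP_8f66f0_al_Chern
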