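import Pool.Agent.Lib.MP_8f66f0_al_Chern.Defs

/-! # Marked words, products over pairs of letters, phases: definitions. -/

set_option autoImplicit false
set_option linter.unusedSectionVars false

namespace Pool.Agent.Lib.MP_8f66f0_al_Chern

open Pool.Agent.Lib.MP_8f66f0_al_FinQ Pool.Agent.Lib.MP_8f66f0_al_Uni

/-- Left-to-right product of `1 + γ j`, `j < n`. -/
def prodTo {K : Type*} [Ring K] (γ : ℕ → K) : ℕ → K
  | 0 => 1
  | n + 1 => prodTo γ n * (1 + γ n)

/-- Marked words: the list of the marked vertices and the product of the letters. -/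
@[ext] structure MW (Γ : Type*) where
  marks : List Γ
  tot : Γ

section

variable {Γ : Type*} [Group Γ]

instance : Mul (MW Γ) := ⟨fun x y => ⟨x.marks ++ y.marks.map (x.tot * ·), x.tot * y.tot⟩⟩

instance : One (MW Γ) := ⟨⟨[], 1⟩⟩

lemma MW.mul_marks (x y : MW Γ) : (x * y).marks = x.marks ++ y.marks.map (x.tot * ·) := rfl

lemma MW.mul_tot (x y : MW Γ) : (x * y).tot = x.tot * y.tot := rfl

lemma MW.one_marks : (1 : MW Γ).marks = [] := rfl

lemma MW.one_tot : (1 : MW Γ).tot = 1 := rfl

instance : Monoid (MW Γ) where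
  mul_assoc x y z := by
    apply MW.ext
    · simp only [MW.mul_marks, MW.mul_tot, List.map_append, List.append_assoc, List.map_map]
      congr 3
      funext a
      simp only [Function.comp_apply, mul_assoc]
    · simp only [MW.mul_tot, mul_assoc]
  one_mul x := by
    apply MW.ext
    · simp only [MW.mul_marks, MW.one_marks, MW.one_tot, List.nil_append, one_mul, List.map_id']
    · simp only [MW.mul_tot, MW.one_tot, one_mul]
  mul_one x := by
    apply MW.ext
    · simp only [MW.mul_marks, MW.one_marks, List.map_nil, List.append_nil]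
    · simp only [MW.mul_tot, MW.one_tot, mul_one]

/-- The ring of marked words. -/
abbrev RM (Γ : Type*) [Group Γ] := MonoidAlgebra ℤ (MW Γ)

/-- the letter `g` -/
noncomputable def uM (g : Γ) : RM Γ := MonoidAlgebra.single ⟨[], g⟩ 1

/-- the mark -/
noncomputable def nM : RM Γ := MonoidAlgebra.single ⟨[1], 1⟩ 1

/-- The functional on the ring of marked words given by `ω`. -/
noncomputable def LM (ω : Γ → List Γ → ℤ) : RM Γ →+ ℤ := lin fun x : MW Γ => ω x.tot x.marks

/-- The group ring in the ring of marked words. -/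
noncomputable def upHom : MonoidAlgebra ℤ Γ →+* RM Γ :=
  MonoidAlgebra.mapDomainRingHom ℤ
    ({ toFun := fun g => ⟨[], g⟩, map_one' := rfl, map_mul' := fun _ _ => rfl } : Γ →* MW Γ)

/-- The types of the factors for a pair of letters. -/
inductive Ty : Type
  | E : Ty
  | T : Ty
  | X (s : ℤ) : Ty

/-- The factor of a pair of letters in the ring of marked words. -/
noncomputable def yy : Ty → Γ → Γ → RM Γ
  | Ty.E, h, g => nM * uM h * nM * uM g
  | Ty.T, h, g => nM * uM h * nM * uM g * nM
  | Ty.X s, h, g => uM h * uM g + s • (nM * uM h * uM g * nM) + nM * uM h * nM * uM g +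
      uM h * nM * uM g * nM

/-- The factor of three consecutive vertices, in any ring. -/
def zz {K : Type*} [Ring K] : Ty → K → K → K → K
  | Ty.E, a, b, _ => a * b
  | Ty.T, a, b, c => a * b * c
  | Ty.X s, a, b, c => 1 + (s • (a * c) + (a * b + b * c))

/-- Products over the pairs of letters of a word. -/
def pp {R : Type*} [Ring R] : List (Γ → Γ → R) → List Γ → R
  | [], _ => 1
  | y :: ys, h :: g :: e => y h g * pp ys e
  | _ :: _, _ => 0

/-- Products over the pairs of letters of a word, starting at the vertex `v`. -/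
noncomputable def zp : Γ → List Ty → List Γ → MonoidAlgebra ℤ (FreeMonoid Γ)
  | _, [], _ => 1
  | v, t :: ts, h :: g :: e => zz t (nn v) (nn (v * h)) (nn (v * h * g)) * zp (v * h * g) ts e
  | _, _ :: _, _ => 0

/-- The matrix over `R` obtained by extending `y` bilinearly. -/
noncomputable def ext2 {R : Type*} [Ring R] {n : ℕ}
    (B A : Matrix (Fin n) (Fin n) (MonoidAlgebra ℤ Γ)) (y : Γ → Γ → R) :
    Matrix (Fin n) (Fin n) R :=
  Matrix.of fun i k => ∑ j, (B i j).coeff.sum fun h b => (A j k).coeff.sum fun g a =>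
    (b * a) • y h g

end

/-- A phase modulo `q` for the map `σ` on the set `Y`. -/
structure IsPh {W : Type*} (σ : W → W) (Y : W → Prop) (q : ℕ) (θ : W → ℤ) : Prop where
  nonneg : ∀ x, 0 ≤ θ x
  lt : ∀ x, θ x < q
  shift : ∀ x, Y x → (q : ℤ) ∣ θ (σ x) - θ x - 1

end Pool.Agent.Lib.MP_8f66f0_al_Chern
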