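import Pool.Agent.Lib.MP_8f66f0_al_Uni.WordSum
import Pool.Agent.Lib.MP_8f66f0_al_Chern.Alg
import Pool.Agent.Lib.MP_8f66f0_al_Chern.Pairs
import Pool.Agent.Lib.MP_8f66f0_al_Chern.Bridge

/-! # Traces of the products of the factors. -/

set_option autoImplicit false
set_option linter.unusedSectionVars false
set_option linter.unusedVariables false

namespace Pool.Agent.Lib.MP_8f66f0_al_Chern

open Pool.Agent.Lib.MP_8f66f0_al_FinQ Pool.Agent.Lib.MP_8f66f0_al_Uni

variable {Γ : Type*} [Group Γ] {ω : Γ → List Γ → ℤ} {n r : ℕ}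

/-- PROOF. `wsum_pp` with `ys = replicate k (yy E)`, `a = 1`, `Φ = LM ω`; `wsum_congr` and `pp_E`. -/
theorem trE (A B : Matrix (Fin n) (Fin n) (MonoidAlgebra ℤ Γ)) (k : ℕ) :
    LM ω (Matrix.trace ((ext2 B A (yy Ty.E)) ^ k)) =
      wsum B A k (fun e => ω e.prod (verts e)) := by
  have h1 := wsum_pp A B (LM ω) 1 (List.replicate k (yy (Γ := Γ) Ty.E))
  rw [List.length_replicate, List.map_replicate, List.prod_replicate, one_mul] at h1
  rw [← h1]
  refine wsum_congr B A k fun e he => ?_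
  rw [one_mul, pp_E k e he]

/-- The square of the mark vanishes in the syntactic ring. -/
lemma evTr_crit (halt : ∀ (c : Γ) (u : List Γ) (a b : Γ) (v : List Γ),
    ω c (u ++ a :: b :: v) = - ω c (u ++ b :: a :: v)) (a b : MW Γ) :
    lin (fun x : MW Γ => ω x.tot x.marks)
      (MonoidAlgebra.single a 1 * (nM * nM) * MonoidAlgebra.single b 1) = 0 := by
  unfold nM
  rw [MonoidAlgebra.single_mul_single, MonoidAlgebra.single_mul_single,
    MonoidAlgebra.single_mul_single, lin_single]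
  have h1 : (a * ((⟨[1], 1⟩ : MW Γ) * ⟨[1], 1⟩) * b).marks =
      a.marks ++ a.tot :: a.tot :: b.marks.map (a.tot * ·) := by
    simp [MW.mul_marks, MW.mul_tot]
  have h2 := halt (a * ((⟨[1], 1⟩ : MW Γ) * ⟨[1], 1⟩) * b).tot a.marks a.tot a.tot
    (b.marks.map (a.tot * ·))
  rw [h1]
  have h3 : ω (a * ((⟨[1], 1⟩ : MW Γ) * ⟨[1], 1⟩) * b).tot
      (a.marks ++ a.tot :: a.tot :: b.marks.map (a.tot * ·)) = 0 := by omega
  rw [h3, mul_zero]

lemma evTr_one {K : Type*} [Ring K] (f : RM Γ →+* K)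
    (A B : Matrix (Fin n) (Fin n) (MonoidAlgebra ℤ Γ)) (hAB : A * B = 1) :
    f.mapMatrix (A.map upHom) * f.mapMatrix (B.map upHom) = 1 := by
  have h1 : A.map upHom = (upHom (Γ := Γ)).mapMatrix A := rfl
  have h2 : B.map upHom = (upHom (Γ := Γ)).mapMatrix B := rfl
  rw [h1, h2, ← map_mul, ← map_mul, hAB, map_one, map_one]

lemma evTr_scalar {K : Type*} [Ring K] (f : RM Γ →+* K) (x : RM Γ) :
    f.mapMatrix (Matrix.scalar (Fin n) x) = Matrix.scalar (Fin n) (f x) := by
  ext i j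
  rw [RingHom.mapMatrix_apply, Matrix.map_apply, Matrix.scalar_apply, Matrix.scalar_apply,
    Matrix.diagonal_apply, Matrix.diagonal_apply]
  split_ifs
  · rfl
  · exact map_zero f

lemma evTr_trace {K : Type*} [Ring K] (f : RM Γ →+* K) (M : Matrix (Fin n) (Fin n) (RM Γ)) :
    f (Matrix.trace M) = Matrix.trace (f.mapMatrix M) := by
  rw [Matrix.trace, Matrix.trace, map_sum]
  rfl

lemma evTr_scalar_trace {K : Type*} [Ring K] (x : K) (M : Matrix (Fin n) (Fin n) K) :
    x * Matrix.trace M = Matrix.trace (Matrix.scalar (Fin n) x * M) := by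
  rw [Matrix.trace, Matrix.trace, Finset.mul_sum]
  refine Finset.sum_congr rfl fun i _ => ?_
  rw [Matrix.diag_apply, Matrix.diag_apply, Matrix.scalar_apply, Matrix.diagonal_mul]

lemma evTr_X {K : Type*} [Ring K] (f : RM Γ →+* K)
    (A B : Matrix (Fin n) (Fin n) (MonoidAlgebra ℤ Γ)) (hBA : B * A = 1)
    (hN : Matrix.scalar (Fin n) (f nM) * Matrix.scalar (Fin n) (f nM) = 0) (s : ℤ) :
    f.mapMatrix (ext2 B A (yy (Ty.X s))) =
      1 + (Matrix.scalar (Fin n) (f nM) * f.mapMatrix (B.map upHom) *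
          Matrix.scalar (Fin n) (f nM) * f.mapMatrix (A.map upHom) +
        f.mapMatrix (B.map upHom) * Matrix.scalar (Fin n) (f nM) * f.mapMatrix (A.map upHom) *
          Matrix.scalar (Fin n) (f nM)) := by
  rw [ext2_X]
  simp only [map_add, map_mul, map_zsmul, evTr_scalar]
  have h1 := evTr_one f B A hBA
  rw [mul_assoc (Matrix.scalar (Fin n) (f nM)) (f.mapMatrix (B.map upHom))
    (f.mapMatrix (A.map upHom)), h1, mul_one, hN, smul_zero, add_zero, add_assoc]

/-- PROOF. `exists_syn` with `M = MW Γ`, `φ x = ω x.tot x.marks`: `f`, `L`. `f nM * f nM = 0`: by the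
criterion and `alternating` (the marks `... ++ a :: a :: ...`). Map everything to matrices over `K`:
`b = (B.map upHom).map f`, `a` the same for `A`, `N = scalar (f nM)`, `b * a = 1`, `a * b = 1`, `N * N = 0`.
`ext2_E`, `ext2_X` with `s = 0`, `alg_x`: the left side is `L (trace (x * (1 + x)^(Q-1)))`,
`= Σ_k (Q-1 choose k) L (trace (x^(k+1)))`, and by `trE` `L (trace (x^(k+1))) = wsum B A (k+1) (ω prod verts)`, which is
`chern m A B ω` for `k = m` and `0` otherwise (`wsum_congr`, `len`: the length `2 (k+1)` is not `2m+2`). -/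
theorem evB {m : ℕ} (hω : IsHomCochain (2 * (m + 1)) ω)
    (A B : Matrix (Fin n) (Fin n) (MonoidAlgebra ℤ Γ)) (hAB : A * B = 1) (hBA : B * A = 1)
    (Q : ℕ) (hQ : 0 < Q) :
    LM ω (Matrix.trace (ext2 B A (yy Ty.E) * (ext2 B A (yy (Ty.X 0))) ^ (Q - 1))) =
      ((Q - 1).choose m : ℤ) * chern m A B ω := by
  obtain ⟨K, hK, f, L, _, hL, hf⟩ := exists_syn (fun x : MW Γ => ω x.tot x.marks)
  have hN1 : f nM * f nM = 0 := by
    rw [← map_mul, hf]
    exact evTr_crit hω.alternating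
  have hN : Matrix.scalar (Fin n) (f nM) * Matrix.scalar (Fin n) (f nM) = 0 := by
    rw [← map_mul, hN1, map_zero]
  have hLL : ∀ M : Matrix (Fin n) (Fin n) (RM Γ),
      LM ω (Matrix.trace M) = L (Matrix.trace (f.mapMatrix M)) := by
    intro M
    rw [← evTr_trace, hL]
    rfl
  have hE : f.mapMatrix (ext2 B A (yy Ty.E)) = Matrix.scalar (Fin n) (f nM) *
      f.mapMatrix (B.map upHom) * Matrix.scalar (Fin n) (f nM) * f.mapMatrix (A.map upHom) := by
    rw [ext2_E, map_mul, map_mul, map_mul, evTr_scalar]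
  rw [hLL, map_mul, map_pow, evTr_X f A B hBA hN, hE,
    alg_x _ _ _ (evTr_one f B A hBA) (evTr_one f A B hAB) hN, ← hE]
  have hpow : ∀ k : ℕ, L (Matrix.trace (f.mapMatrix (ext2 B A (yy Ty.E)) ^ (k + 1))) =
      if k = m then chern m A B ω else 0 := by
    intro k
    rw [← map_pow, ← hLL, trE]
    split_ifs with hk
    · rw [hk]
      rfl
    · refine wsum_eq_zero_of_support B A (k + 1) Set.univ (fun _ _ _ _ => Set.mem_univ _)
        (fun _ _ _ _ => Set.mem_univ _) fun w hw _ => ?_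
      refine hω.len _ _ ?_
      have h1 : (verts w).length = w.length := by
        unfold verts
        rw [List.length_map, List.length_range]
      rw [h1, hw]
      omega
  rw [add_comm (1 : Matrix (Fin n) (Fin n) K) (f.mapMatrix (ext2 B A (yy Ty.E))),
    (Commute.one_right _).add_pow, Finset.mul_sum, Matrix.trace_sum, map_sum]
  have h2 : ∀ k ∈ Finset.range (Q - 1 + 1),
      L (Matrix.trace (f.mapMatrix (ext2 B A (yy Ty.E)) *
        (f.mapMatrix (ext2 B A (yy Ty.E)) ^ k * 1 ^ (Q - 1 - k) *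
          (((Q - 1).choose k : ℕ) : Matrix (Fin n) (Fin n) K)))) =
      ((Q - 1).choose k : ℤ) * (if k = m then chern m A B ω else 0) := by
    intro k _
    rw [← hpow k, one_pow, mul_one, ← mul_assoc, ← pow_succ', ← nsmul_eq_mul', Matrix.trace_smul,
      map_nsmul, nsmul_eq_mul]
  rw [Finset.sum_congr rfl h2]
  by_cases hm : m ∈ Finset.range (Q - 1 + 1)
  · rw [Finset.sum_eq_single_of_mem m hm]
    · rw [if_pos rfl]
    · intro b _ hb
      rw [if_neg hb, mul_zero]
  · have h3 : Q - 1 < m := by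
      rw [Finset.mem_range] at hm
      omega
    rw [Nat.choose_eq_zero_of_lt h3, Nat.cast_zero, zero_mul]
    refine Finset.sum_eq_zero fun k hk => ?_
    rw [if_neg, mul_zero]
    rintro rfl
    exact hm hk

/-- PROOF. As `evB`, with `alg_T`; in the matrices over `K`, `ext2 B A (yy (X s))` becomes
`1 + s • (N * 1 * N) + x + y = 1 + (x + y)`. -/
theorem evT (hω : IsHomCochain r ω) (A B : Matrix (Fin n) (Fin n) (MonoidAlgebra ℤ Γ))
    (hAB : A * B = 1) (hBA : B * A = 1) (s : ℤ) (i k : ℕ) :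
    LM ω (nM * Matrix.trace ((ext2 B A (yy (Ty.X s))) ^ i * ext2 B A (yy Ty.T) *
      (ext2 B A (yy (Ty.X s))) ^ k)) = 0 := by
  obtain ⟨K, hK, f, L, _, hL, hf⟩ := exists_syn (fun x : MW Γ => ω x.tot x.marks)
  have hN1 : f nM * f nM = 0 := by
    rw [← map_mul, hf]
    exact evTr_crit hω.alternating
  have hN : Matrix.scalar (Fin n) (f nM) * Matrix.scalar (Fin n) (f nM) = 0 := by
    rw [← map_mul, hN1, map_zero]
  have hT : f.mapMatrix (ext2 B A (yy Ty.T)) = Matrix.scalar (Fin n) (f nM) *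
      f.mapMatrix (B.map upHom) * Matrix.scalar (Fin n) (f nM) * f.mapMatrix (A.map upHom) *
      Matrix.scalar (Fin n) (f nM) := by
    rw [ext2_T, map_mul, map_mul, map_mul, map_mul, evTr_scalar]
  have h0 : LM ω (nM * Matrix.trace ((ext2 B A (yy (Ty.X s))) ^ i * ext2 B A (yy Ty.T) *
      (ext2 B A (yy (Ty.X s))) ^ k)) = L (f (nM * Matrix.trace ((ext2 B A (yy (Ty.X s))) ^ i *
        ext2 B A (yy Ty.T) * (ext2 B A (yy (Ty.X s))) ^ k))) := by
    rw [hL]
    rfl
  rw [h0, map_mul, evTr_trace, evTr_scalar_trace, map_mul, map_mul, map_pow, map_pow,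
    evTr_X f A B hBA hN, hT, ← mul_assoc, ← mul_assoc,
    alg_T _ _ _ (evTr_one f B A hBA) (evTr_one f A B hAB) hN, zero_mul, Matrix.trace_zero,
    map_zero]

end Pool.Agent.Lib.MP_8f66f0_al_Chern
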