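import Pool.Agent.Lib.MP_8f66f0_al_Chern.Defs2

/-! # Powers of sums of commuting elements of square zero. -/

set_option autoImplicit false
set_option linter.unusedSectionVars false
set_option linter.unusedVariables false

namespace Pool.Agent.Lib.MP_8f66f0_al_Chern

open Pool.Agent.Lib.MP_8f66f0_al_FinQ Pool.Agent.Lib.MP_8f66f0_al_Uni

lemma sq_add_pow {K : Type*} [Ring K] (s g : K) (hc : s * g = g * s) (hg : g * g = 0) (m : ℕ) :
    (s + g) ^ (m + 1) = s ^ (m + 1) + ((m + 1 : ℕ) : K) * (s ^ m * g) := by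
  induction m with
  | zero => simp
  | succ m ih =>
    have hcm : s ^ m * g * s = s ^ (m + 1) * g := by
      rw [mul_assoc, ← hc, ← mul_assoc, ← pow_succ]
    rw [pow_succ, ih]
    have h1 : (s ^ (m + 1) + ((m + 1 : ℕ) : K) * (s ^ m * g)) * (s + g) =
        s ^ (m + 1) * s + s ^ (m + 1) * g + ((m + 1 : ℕ) : K) * (s ^ m * g * s) +
          ((m + 1 : ℕ) : K) * (s ^ m * (g * g)) := by
      noncomm_ring
    rw [h1, hcm, hg, ← pow_succ]
    push_cast
    noncomm_ring

lemma sq_comm_prodTo {K : Type*} [Ring K] (γ : ℕ → K) (τ : K) (hτ : ∀ j, τ * γ j = γ j * τ)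
    (n : ℕ) : τ * prodTo γ n = prodTo γ n * τ := by
  induction n with
  | zero => simp [prodTo]
  | succ n ih =>
    show τ * (prodTo γ n * (1 + γ n)) = prodTo γ n * (1 + γ n) * τ
    rw [← mul_assoc, ih, mul_assoc, mul_assoc, mul_add, add_mul, hτ n, mul_one, one_mul]

open Nat in
/-- PROOF. Induction on `n`, for all `m`, `x`, `d`. `n = 0`: `m = 0` clear; `m > 0`: the left side is
`0`, the right side is `m! * L (x * 1) = 0` by `L_deg` (`d ≠ r`). Step: with `s = Σ_{j<n} γ j`, which
commutes with `γ n`, `(s + γ n)^m = s^m + m * (s^(m-1) * γ n)` (as `γ n * γ n = 0`), and `x * s^(m-1) * γ n =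
(x * γ n) * s^(m-1)`, `x * γ n ∈ deg (d + 2)`. The induction hypothesis for `(m, x)` and for
`(m - 1, x * γ n)` gives `L (x (s + γ n)^m) = m! L (x P) + m (m-1)! L (x * γ n * P)`, `P = prodTo γ n`, and
`γ n` commutes with `P`. -/
theorem sq_pick {K : Type*} [Ring K] (L : K →+ ℤ) (deg : ℕ → AddSubgroup K) (r : ℕ)
    (mul_deg : ∀ a b x y, x ∈ deg a → y ∈ deg b → x * y ∈ deg (a + b))
    (L_deg : ∀ d x, x ∈ deg d → d ≠ r → L x = 0) (γ : ℕ → K) (hdeg : ∀ j, γ j ∈ deg 2)
    (hcomm : ∀ i j, γ i * γ j = γ j * γ i) (hsq : ∀ j, γ j * γ j = 0) (n m d : ℕ) (x : K)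
    (hx : x ∈ deg d) (hd : d + 2 * m = r) :
    L (x * (∑ j ∈ Finset.range n, γ j) ^ m) = (m ! : ℤ) * L (x * prodTo γ n) := by
  induction n generalizing m x d with
  | zero =>
    rcases m with _ | m
    · simp [prodTo]
    · have h0 : L x = 0 := L_deg d x hx (by omega)
      simp [prodTo, h0]
  | succ n ih =>
    rw [Finset.sum_range_succ]
    have hP : prodTo γ (n + 1) = prodTo γ n + γ n * prodTo γ n := by
      rw [sq_comm_prodTo γ (γ n) (fun j => hcomm n j) n]
      show prodTo γ n * (1 + γ n) = _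
      rw [mul_add, mul_one]
    rcases m with _ | m
    · have h1 := ih 0 d x hx hd
      have h2 : L (x * γ n * prodTo γ n) = 0 := by
        have h3 : x * γ n ∈ deg (d + 2) := mul_deg _ _ _ _ hx (hdeg n)
        have h4 : ∀ k, ∀ y, ∀ e, r < e → y ∈ deg e → L (y * prodTo γ k) = 0 := by
          intro k
          induction k with
          | zero =>
            intro y e he hy
            show L (y * 1) = 0
            rw [mul_one]
            exact L_deg e y hy (by omega)
          | succ k ihk =>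
            intro y e he hy
            have hPk : prodTo γ (k + 1) = prodTo γ k + γ k * prodTo γ k := by
              rw [sq_comm_prodTo γ (γ k) (fun j => hcomm k j) k]
              show prodTo γ k * (1 + γ k) = _
              rw [mul_add, mul_one]
            rw [hPk, mul_add, map_add, ihk y e he hy, ← mul_assoc,
              ihk (y * γ k) (e + 2) (by omega) (mul_deg _ _ _ _ hy (hdeg k)), add_zero]
        exact h4 n _ (d + 2) (by omega) h3
      rw [hP, mul_add, map_add, ← mul_assoc, h2, add_zero]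
      simpa using h1
    · have hc : (∑ j ∈ Finset.range n, γ j) * γ n = γ n * ∑ j ∈ Finset.range n, γ j := by
        rw [Finset.sum_mul, Finset.mul_sum]
        exact Finset.sum_congr rfl fun j _ => hcomm j n
      have hcp : (∑ j ∈ Finset.range n, γ j) ^ m * γ n =
          γ n * (∑ j ∈ Finset.range n, γ j) ^ m := by
        exact (Commute.pow_left (show Commute _ _ from hc) m)
      rw [sq_add_pow _ _ hc (hsq n), mul_add, map_add, ih (m + 1) d x hx hd, hcp]
      have h1 : x * (((m + 1 : ℕ) : K) * (γ n * (∑ j ∈ Finset.range n, γ j) ^ m)) =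
          (m + 1) • (x * γ n * (∑ j ∈ Finset.range n, γ j) ^ m) := by
        rw [nsmul_eq_mul, ← mul_assoc x, (Nat.cast_commute (m + 1) x).symm.eq, mul_assoc, mul_assoc]
      rw [h1, map_nsmul, ih m (d + 2) (x * γ n) (mul_deg _ _ _ _ hx (hdeg n)) (by omega), hP,
        mul_add, map_add, Nat.factorial_succ, nsmul_eq_mul, ← mul_assoc x]
      push_cast
      ring

/-- Moving the `i`-th factor. PROOF: induction on `n`. -/
theorem prodTo_split {K : Type*} [Ring K] (γ : ℕ → K)
    (hcomm : ∀ i j, γ i * γ j = γ j * γ i) (τ : K) (i : ℕ) (hτ : ∀ j, τ * γ j = γ j * τ)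
    (h0 : τ * γ i = 0) (n : ℕ) (hi : i < n) :
    τ * prodTo γ n = prodTo γ i * τ * prodTo (fun j => γ (i + 1 + j)) (n - 1 - i) := by
  obtain ⟨k, rfl⟩ : ∃ k, n = i + 1 + k := ⟨n - (i + 1), by omega⟩
  have hk : i + 1 + k - 1 - i = k := by omega
  rw [hk]
  clear hk hi
  induction k with
  | zero =>
    show τ * (prodTo γ i * (1 + γ i)) = prodTo γ i * τ * 1
    rw [← mul_assoc, sq_comm_prodTo γ τ hτ, mul_add, mul_one, mul_assoc _ τ, h0, mul_zero,
      add_zero]
  | succ k ih =>
    show τ * (prodTo γ (i + 1 + k) * (1 + γ (i + 1 + k))) =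
      prodTo γ i * τ * (prodTo (fun j => γ (i + 1 + j)) k * (1 + γ (i + 1 + k)))
    rw [← mul_assoc, ih, mul_assoc, mul_assoc]

end Pool.Agent.Lib.MP_8f66f0_al_Chern
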