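import Pool.Agent.Lib.MP_8f66f0_al_Chern.ClassA
import Pool.Agent.Lib.MP_8f66f0_al_Chern.ClassB
import Pool.Agent.Lib.MP_8f66f0_al_Chern.Split

/-! # The main theorem. -/

set_option autoImplicit false
set_option linter.unusedSectionVars false
set_option linter.unusedVariables false

namespace Pool.Agent.Lib.MP_8f66f0_al_Chern

open Pool.Agent.Lib.MP_8f66f0_al_FinQ Pool.Agent.Lib.MP_8f66f0_al_Uni

/-- In every finitely generated subgroup `H` containing `c`, the element `c` is not a `p^k`-th power
for some prime power `p^k`. -/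
def Undivided {Γ : Type*} [Group Γ] (c : Γ) : Prop :=
  ∀ H : Subgroup Γ, H.FG → c ∈ H → ∃ p k : ℕ, p.Prime ∧ ∀ x ∈ H, x ^ p ^ k ≠ c

lemma not_undivided_one {Γ : Type*} [Group Γ] : ¬ Undivided (1 : Γ) := by
  intro h
  obtain ⟨p, k, -, hx⟩ := h ⊥ Subgroup.FG.bot (one_mem _)
  exact hx 1 (one_mem _) (one_pow _)

lemma chern_zero {Γ : Type*} [Group Γ] {n m : ℕ}
    (A B : Matrix (Fin n) (Fin n) (MonoidAlgebra ℤ Γ)) :
    chern m A B (fun _ _ => 0) = 0 := by
  unfold chern
  exact wsum_eq_zero_of_support _ _ _ Set.univ (fun _ _ _ _ => Set.mem_univ _)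
    (fun _ _ _ _ => Set.mem_univ _) (fun _ _ _ => rfl)

theorem main {Γ : Type*} [Group Γ] (htf : ∀ g : Γ, ∀ k : ℕ, 0 < k → g ^ k = 1 → g = 1)
    {n m : ℕ} (A B : Matrix (Fin n) (Fin n) (MonoidAlgebra ℤ Γ))
    (hAB : A * B = 1) (hBA : B * A = 1) (ω : Γ → List Γ → ℤ)
    (hω : IsHomCocycle (2 * (m + 1)) ω)
    (hsupp : ∀ c u, ω c u ≠ 0 → (c = 1 ∧ 0 < m) ∨ Undivided c) :
    chern m A B ω = 0 := by
  obtain ⟨H, A', B', hH, hAB', hBA', hres⟩ := exists_restrict A B hAB hBA
  rw [hres m ω]
  refine chern_split A' B' fun c0 => ?_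
  have hω' := clsR_cocycle (resH_cocycle hω H) c0
  by_cases hc : c0 = 1
  · subst hc
    rcases Nat.eq_zero_or_pos m with hm | hm
    · have hz : clsR (1 : H) (resH H ω) = fun _ _ => 0 := by
        funext c u
        unfold clsR
        split_ifs with hcc
        · rw [isConj_one_right] at hcc
          subst hcc
          by_contra hne
          rcases hsupp _ _ hne with h | h
          · omega
          · exact not_undivided_one h
        · rfl
      rw [hz]
      exact chern_zero A' B'
    · refine classB hω' hm A' B' hAB' hBA' ?_ ?_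
      · refine Nat.infinite_setOfPred_prime.mono fun p hp => ⟨hp, fun g hg => ?_⟩
        refine Subtype.ext (htf g p (Nat.Prime.pos hp) ?_)
        have := congrArg Subtype.val hg
        simpa using this
      · intro c u hcu
        unfold clsR
        rw [if_neg]
        intro h
        rw [isConj_one_right] at h
        exact hcu h
  · by_cases hz : ∀ c u, clsR c0 (resH H ω) c u = 0
    · have hz' : clsR c0 (resH H ω) = fun _ _ => 0 := by
        funext c u
        exact hz c u
      rw [hz']
      exact chern_zero A' B'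
    · push_neg at hz
      obtain ⟨c, u, hcu⟩ := hz
      unfold clsR at hcu
      by_cases hcc : IsConj c0 c
      · rw [if_pos hcc] at hcu
        have hc1 : (c : Γ) ≠ 1 := by
          intro h
          have h1 : c = 1 := Subtype.ext h
          rw [h1, isConj_one_left] at hcc
          exact hc hcc
        rcases hsupp _ _ hcu with h | h
        · exact absurd h.1 hc1
        · obtain ⟨p, k, hp, hx⟩ := h H hH c.2
          refine classA hω' A' B' hAB' hBA' hp k c0 (fun y hy => ?_) ?_
          · rw [isConj_iff] at hcc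
            obtain ⟨t, ht⟩ := hcc
            refine hx (t * y * t⁻¹ : H) (t * y * t⁻¹ : H).2 ?_
            rw [← ht, ← hy, ← SubgroupClass.coe_pow, conj_pow]
          · intro c' u' hcu'
            unfold clsR
            rw [if_neg hcu']
      · rw [if_neg hcc] at hcu
        exact absurd rfl hcu

end Pool.Agent.Lib.MP_8f66f0_al_Chern
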