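import Pool.Agent.Lib.MP_8f66f0_al_Chern.EvTr
import Pool.Agent.Lib.MP_8f66f0_al_Chern.Sq
import Pool.Agent.Lib.MP_8f66f0_al_Chern.Syn

/-! # The sum of the second part of `F` vanishes. -/

set_option autoImplicit false
set_option linter.unusedSectionVars false
set_option linter.unusedVariables false

namespace Pool.Agent.Lib.MP_8f66f0_al_Chern

open Pool.Agent.Lib.MP_8f66f0_al_FinQ Pool.Agent.Lib.MP_8f66f0_al_Uni

universe u

/-- `exists_super` with the ring in the universe of the group -/
private theorem partA_super {Γ : Type u} [Group Γ] {r : ℕ} {ω : Γ → List Γ → ℤ}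
    (hω : IsHomCocycle r ω) (c : Γ) :
    ∃ (K : Type u) (_ : Ring K) (f : MonoidAlgebra ℤ (FreeMonoid Γ) →+* K) (α : K →+* K)
      (D : K →+ K) (L : K →+ ℤ) (deg : ℕ → AddSubgroup K), Super r ω c K f α D L deg :=
  exists_super hω c

variable {Γ : Type*} [Group Γ] {ω : Γ → List Γ → ℤ} {n m : ℕ}

section partA_ring

variable {K : Type*} [Ring K] (N : ℕ → K)

/-- the factor of the `j`-th pair -/
private def partA_ga (s : ℤ) (j : ℕ) : K :=
  s • (N (2 * j) * N (2 * j + 2)) + (N (2 * j) * N (2 * j + 1) + N (2 * j + 1) * N (2 * j + 2))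

/-- the `j`-th triangle -/
private def partA_ta (j : ℕ) : K := N (2 * j) * N (2 * j + 1) * N (2 * j + 2)

variable (anti : ∀ a b, N a * N b = - (N b * N a)) (sq : ∀ a, N a * N a = 0)

include anti in
private theorem partA_pair_comm (a b c : ℕ) : Commute (N a * N b) (N c) := by
  show N a * N b * N c = N c * (N a * N b)
  rw [mul_assoc, anti b c, mul_neg, ← mul_assoc, anti a c, neg_mul, neg_neg, mul_assoc]

include anti in
private theorem partA_ga_comm (s : ℤ) (j c : ℕ) : Commute (partA_ga N s j) (N c) := by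
  unfold partA_ga
  exact ((partA_pair_comm N anti _ _ _).smul_left s).add_left
    ((partA_pair_comm N anti _ _ _).add_left (partA_pair_comm N anti _ _ _))

include anti in
private theorem partA_ga_ga (s : ℤ) (i j : ℕ) :
    partA_ga N s i * partA_ga N s j = partA_ga N s j * partA_ga N s i := by
  have h : ∀ c, Commute (partA_ga N s i) (N c) := partA_ga_comm N anti s i
  have h2 : Commute (partA_ga N s i) (partA_ga N s j) := by
    nth_rewrite 2 [partA_ga]
    exact (((h _).mul_right (h _)).smul_right s).add_right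
      (((h _).mul_right (h _)).add_right ((h _).mul_right (h _)))
  exact h2

include anti in
private theorem partA_ta_ga (s : ℤ) (i j : ℕ) :
    partA_ta N i * partA_ga N s j = partA_ga N s j * partA_ta N i := by
  have h : ∀ c, Commute (N c) (partA_ga N s j) := fun c => (partA_ga_comm N anti s j c).symm
  have h2 : Commute (partA_ta N i) (partA_ga N s j) := by
    unfold partA_ta
    exact ((h _).mul_left (h _)).mul_left (h _)
  exact h2

include sq in
private theorem partA_q1 (a b d : ℕ) : N a * N b * (N b * N d) = 0 := by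
  rw [mul_assoc, ← mul_assoc (N b), sq, zero_mul, mul_zero]

include anti sq in
private theorem partA_q2 (a b d : ℕ) : N a * N b * (N a * N d) = 0 := by
  rw [anti a b, neg_mul, partA_q1 N sq, neg_zero]

include anti sq in
private theorem partA_q3 (a b d : ℕ) : N a * N b * (N d * N b) = 0 := by
  rw [anti d b, mul_neg, partA_q1 N sq, neg_zero]

include anti sq in
private theorem partA_q4 (a b d : ℕ) : N a * N b * (N d * N a) = 0 := by
  rw [anti a b, neg_mul, partA_q3 N anti sq, neg_zero]

include anti sq in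
private theorem partA_ga_sq (s : ℤ) (j : ℕ) : partA_ga N s j * partA_ga N s j = 0 := by
  unfold partA_ga
  simp only [add_mul, mul_add, smul_mul_assoc, mul_smul_comm, partA_q1 N sq, partA_q2 N anti sq,
    partA_q3 N anti sq, partA_q4 N anti sq, smul_zero, add_zero]

include anti sq in
private theorem partA_ta_zero (s : ℤ) (j : ℕ) : partA_ta N j * partA_ga N s j = 0 := by
  unfold partA_ta partA_ga
  have h1 : N (2 * j) * N (2 * j + 1) * N (2 * j + 2) * (N (2 * j) * N (2 * j + 2)) = 0 := by
    rw [mul_assoc (N (2 * j)) (N (2 * j + 1)), mul_assoc, partA_q3 N anti sq, mul_zero]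
  have h2 : N (2 * j) * N (2 * j + 1) * N (2 * j + 2) * (N (2 * j) * N (2 * j + 1)) = 0 := by
    rw [mul_assoc (N (2 * j)) (N (2 * j + 1)), mul_assoc, partA_q4 N anti sq, mul_zero]
  have h3 : N (2 * j) * N (2 * j + 1) * N (2 * j + 2) * (N (2 * j + 1) * N (2 * j + 2)) = 0 := by
    rw [mul_assoc (N (2 * j)) (N (2 * j + 1)), mul_assoc, partA_q2 N anti sq, mul_zero]
  rw [mul_add, mul_add, mul_smul_comm, h1, h2, h3, smul_zero, add_zero, add_zero]

private theorem partA_pg_two (Q : ℕ) : pg N (2 * Q) =
    ∑ j ∈ Finset.range Q, (N (2 * j) * N (2 * j + 1) + N (2 * j + 1) * N (2 * j + 2)) := by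
  unfold pg
  induction Q with
  | zero => simp
  | succ Q ih =>
    rw [Finset.sum_range_succ, ← ih, show 2 * (Q + 1) = 2 * Q + 1 + 1 by ring,
      Finset.sum_range_succ, Finset.sum_range_succ, add_assoc]

private theorem partA_sum_ga (s : ℤ) (Q : ℕ) :
    s • pg (fun j => N (2 * j)) Q + pg N (2 * Q) = ∑ j ∈ Finset.range Q, partA_ga N s j := by
  rw [partA_pg_two]
  unfold pg partA_ga
  rw [Finset.smul_sum, ← Finset.sum_add_distrib]
  rfl

private theorem partA_tri (Q : ℕ) : tri N Q = ∑ j ∈ Finset.range Q, partA_ta N j := rfl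

private theorem partA_prodTo (γ : ℕ → K) (k : ℕ) :
    prodTo γ k = ((List.range k).map fun j => 1 + γ j).prod := by
  induction k with
  | zero => simp [prodTo]
  | succ k ih =>
    rw [List.range_succ, List.map_append, List.prod_append, ← ih]
    simp [prodTo]

end partA_ring

private theorem partA_zz {K K' : Type*} [Ring K] [Ring K'] (f : K →+* K') (t : Ty) (a b c : K) :
    f (zz t a b c) = zz t (f a) (f b) (f c) := by
  cases t with
  | E => exact map_mul f a b
  | T => show f (a * b * c) = _; rw [map_mul, map_mul]; rfl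
  | X s =>
    show f (1 + (s • (a * c) + (a * b + b * c))) = _
    rw [map_add, map_one, map_add, map_zsmul, map_add, map_mul, map_mul, map_mul]
    rfl

private theorem partA_list {K : Type*} [Ring K] (N : ℕ → K) (s : ℤ) (i k : ℕ) :
    ((List.range (i + 1 + k)).map fun j =>
      zz ((List.replicate i (Ty.X s) ++ Ty.T :: List.replicate k (Ty.X s)).getD j Ty.E)
        (N (2 * j)) (N (2 * j + 1)) (N (2 * j + 2))).prod =
      prodTo (partA_ga N s) i * partA_ta N i *
        prodTo (fun j => partA_ga N s (i + 1 + j)) k := by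
  rw [List.range_add, List.map_append, List.prod_append, List.range_succ, List.map_append,
    List.prod_append, partA_prodTo, partA_prodTo, List.map_map]
  congr 1
  · congr 1
    · congr 1
      refine List.map_congr_left fun j hj => ?_
      rw [List.mem_range] at hj
      rw [List.getD_append _ _ _ _ (by rw [List.length_replicate]; exact hj),
        List.getD_eq_getElem _ _ (by rw [List.length_replicate]; exact hj), List.getElem_replicate]
      rfl
    · rw [List.map_singleton, List.prod_singleton,
        List.getD_append_right _ _ _ _ (by rw [List.length_replicate]), List.length_replicate,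
        Nat.sub_self]
      rfl
  · congr 1
    refine List.map_congr_left fun j hj => ?_
    rw [List.mem_range] at hj
    rw [Function.comp_apply,
      List.getD_append_right _ _ _ _ (by rw [List.length_replicate]; omega),
      List.length_replicate, show i + 1 + j - i = j + 1 by omega, List.getD_cons_succ,
      List.getD_eq_getElem _ _ (by rw [List.length_replicate]; exact hj), List.getElem_replicate]
    rfl

open Nat in
/-- PROOF. `exists_super` at `c = e.prod`; `N j = f (nn (vx e j))`; `α j = N (2j) * N (2j+2)`,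
`β j = N (2j) * N (2j+1) + N (2j+1) * N (2j+2)`, `γ j = s • α j + β j`, `τ j = N (2j) * N (2j+1) * N (2j+2)`.
`pg (N (2j)) Q = Σ α j`, `pg N (2Q) = Σ β j`, `tri N Q = Σ τ j`. The `γ j` commute with each other and with
the `τ i`, `γ j * γ j = 0`, `τ j * γ j = 0` (`anti`, `sq`). `sq_pick` with `x = N 0 * τ i`, `d = 4`, and the exponent
`m - 1`; then `prodTo_split`; then `zp_eq` (the image under `f` of the right side). -/
theorem partA_word (hω : IsHomCocycle (2 * (m + 1)) ω) (hm : 0 < m) (s : ℤ) (Q : ℕ) (hQ : 0 < Q)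
    (e : List Γ) (he : e.length = 2 * Q) :
    Lc ω e.prod (nn (vx e 0) * (tri (fun j => nn (vx e j)) Q *
      (s • pg (fun j => nn (vx e (2 * j))) Q + pg (fun j => nn (vx e j)) (2 * Q)) ^ (m - 1))) =
      ((m - 1)! : ℤ) * ∑ i ∈ Finset.range Q, Lc ω e.prod (nn 1 *
        zp 1 (List.replicate i (Ty.X s) ++ Ty.T :: List.replicate (Q - 1 - i) (Ty.X s)) e) := by
  obtain ⟨K, _, f, α, D, L, deg, hS⟩ := partA_super hω e.prod
  set N : ℕ → K := fun j => f (nn (vx e j)) with hN
  have anti : ∀ a b, N a * N b = - (N b * N a) := fun a b => hS.anti _ _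
  have sq : ∀ a, N a * N a = 0 := fun a => hS.sq _
  have hNdeg : ∀ a, N a ∈ deg 1 := fun a => hS.nn_deg _
  have h2deg : ∀ a b, N a * N b ∈ deg 2 := fun a b => hS.mul_deg 1 1 _ _ (hNdeg a) (hNdeg b)
  have hgdeg : ∀ j, partA_ga N s j ∈ deg 2 := fun j => by
    unfold partA_ga
    exact AddSubgroup.add_mem _ (AddSubgroup.zsmul_mem _ (h2deg _ _) s)
      (AddSubgroup.add_mem _ (h2deg _ _) (h2deg _ _))
  have htdeg : ∀ i, N 0 * partA_ta N i ∈ deg 4 := fun i => by
    unfold partA_ta
    exact hS.mul_deg 1 3 _ _ (hNdeg 0) (hS.mul_deg 2 1 _ _ (h2deg _ _) (hNdeg _))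
  rw [← hS.L_f]
  have e1 : f (nn (vx e 0) * (tri (fun j => nn (vx e j)) Q *
      (s • pg (fun j => nn (vx e (2 * j))) Q + pg (fun j => nn (vx e j)) (2 * Q)) ^ (m - 1))) =
      ∑ i ∈ Finset.range Q, N 0 * partA_ta N i *
        (∑ j ∈ Finset.range Q, partA_ga N s j) ^ (m - 1) := by
    rw [map_mul, map_mul, map_pow, map_add, map_zsmul, map_pg, map_pg, map_tri,
      ← partA_sum_ga N s Q]
    have e2 : tri (fun j => f (nn (vx e j))) Q = ∑ j ∈ Finset.range Q, partA_ta N j := rfl
    rw [e2, Finset.sum_mul, Finset.mul_sum]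
    refine Finset.sum_congr rfl fun i _ => ?_
    rw [mul_assoc]
  rw [e1, map_sum, Finset.mul_sum]
  refine Finset.sum_congr rfl fun i hi => ?_
  rw [Finset.mem_range] at hi
  rw [sq_pick L deg (2 * (m + 1)) hS.mul_deg hS.L_deg (partA_ga N s) hgdeg
    (partA_ga_ga N anti s) (partA_ga_sq N anti sq s) Q (m - 1) 4 _ (htdeg i) (by omega)]
  congr 1
  have hlen : (List.replicate i (Ty.X s) ++ Ty.T :: List.replicate (Q - 1 - i) (Ty.X s)).length =
      i + 1 + (Q - 1 - i) := by
    rw [List.length_append, List.length_cons, List.length_replicate, List.length_replicate]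
    ring
  rw [← hS.L_f, map_mul f, zp_eq _ e (by rw [hlen, he]; omega), hlen, map_list_prod f,
    List.map_map]
  congr 1
  rw [mul_assoc, prodTo_split (partA_ga N s) (partA_ga_ga N anti s) (partA_ta N i) i
    (fun j => partA_ta_ga N anti s i j) (partA_ta_zero N anti sq s i) Q hi]
  have e3 : N 0 = f (nn 1) := by
    show f (nn (vx e 0)) = _
    rw [vx_zero]
  rw [e3]
  congr 1
  rw [show Q - 1 - i = Q - 1 - i from rfl, ← partA_list N s i (Q - 1 - i)]
  congr 1
  refine List.map_congr_left fun j _ => ?_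
  rw [Function.comp_apply, partA_zz]

private theorem partA_finsum {β : Type*} (B A : Matrix (Fin n) (Fin n) (MonoidAlgebra ℤ Γ))
    (Q : ℕ) (t : Finset β) (F : β → List Γ → ℤ) :
    wsum B A Q (fun w => ∑ a ∈ t, F a w) = ∑ a ∈ t, wsum B A Q (F a) := by
  classical
  induction t using Finset.induction_on with
  | empty =>
    have h := wsum_smul B A Q 0 (fun _ => (0 : ℤ))
    simpa using h
  | insert a t ha ih =>
    rw [Finset.sum_insert ha, ← ih, ← wsum_add]
    refine wsum_congr B A Q fun w _ => ?_
    rw [Finset.sum_insert ha]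

/-- PROOF. `partA_word`, `bridge`, `wsum_pp` with `a = nM`, `evT`; `wsum` of a finite sum. -/
theorem partA_s (hω : IsHomCocycle (2 * (m + 1)) ω) (hm : 0 < m)
    (A B : Matrix (Fin n) (Fin n) (MonoidAlgebra ℤ Γ)) (hAB : A * B = 1) (hBA : B * A = 1)
    (s : ℤ) (Q : ℕ) (hQ : 0 < Q) :
    wsum B A Q (fun e => Lc ω e.prod (nn (vx e 0) * (tri (fun j => nn (vx e j)) Q *
      (s • pg (fun j => nn (vx e (2 * j))) Q + pg (fun j => nn (vx e j)) (2 * Q)) ^ (m - 1)))) =
      0 := by
  rw [wsum_congr B A Q (fun e he => partA_word hω hm s Q hQ e he), wsum_smul, partA_finsum]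
  rw [Finset.sum_eq_zero, mul_zero]
  intro i hi
  rw [Finset.mem_range] at hi
  set ts : List Ty := List.replicate i (Ty.X s) ++ Ty.T :: List.replicate (Q - 1 - i) (Ty.X s)
    with hts
  have hlen : ts.length = Q := by
    rw [hts, List.length_append, List.length_cons, List.length_replicate, List.length_replicate]
    omega
  have e1 : wsum B A Q (fun e => Lc ω e.prod (nn 1 * zp 1 ts e)) =
      wsum B A (ts.map (yy (Γ := Γ))).length
        (fun e => LM ω (nM * pp (ts.map (yy (Γ := Γ))) e)) := by
    rw [List.length_map, hlen]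
    refine wsum_congr B A Q fun e he => ?_
    exact (bridge (ω := ω) ts e (by rw [hlen]; exact he)).2.symm
  rw [e1, wsum_pp A B (LM ω) nM (ts.map (yy (Γ := Γ)))]
  have e2 : ((ts.map (yy (Γ := Γ))).map (ext2 B A)).prod =
      (ext2 B A (yy (Γ := Γ) (Ty.X s))) ^ i * ext2 B A (yy (Γ := Γ) Ty.T) *
        (ext2 B A (yy (Γ := Γ) (Ty.X s))) ^ (Q - 1 - i) := by
    rw [hts, List.map_append, List.map_append, List.map_cons, List.map_cons, List.prod_append,
      List.prod_cons, List.map_replicate, List.map_replicate, List.prod_replicate,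
      List.map_replicate, List.map_replicate, List.prod_replicate, mul_assoc]
  rw [e2]
  exact evT hω.toIsHomCochain A B hAB hBA s i (Q - 1 - i)

/-- PROOF. For a word `e` of length `2 Q` the two polygons commute in the super ring, so by the
binomial theorem `partA_s` says `Σ_{k<m} (m-1 choose k) s^k q_k = 0` for every integer `s`, with
`q_k = wsum B A Q (fun e => Lc ω e.prod (nn (vx e 0) * (tri * (pg0^k * pg^(m-1-k)))))`. A polynomial in
`s` with integer coefficients vanishing at all integers is zero, so all `q_k = 0`. Sum over `k`. For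
`m = 0` the function is `0`. -/
theorem partA (hω : IsHomCocycle (2 * (m + 1)) ω)
    (A B : Matrix (Fin n) (Fin n) (MonoidAlgebra ℤ Γ)) (hAB : A * B = 1) (hBA : B * A = 1)
    (Q : ℕ) (hQ : 0 < Q) :
    wsum B A Q (fun e => Lc ω e.prod (nn (vx e 0) * hmt m Q fun j => nn (vx e j))) = 0 := by
  set q : ℕ → List Γ → ℤ := fun k e => Lc ω e.prod (nn (vx e 0) * (tri (fun j => nn (vx e j)) Q *
    ((pg (fun j => nn (vx e (2 * j))) Q) ^ k * (pg (fun j => nn (vx e j)) (2 * Q)) ^ (m - 1 - k))))
    with hq
  have e1 : wsum B A Q (fun e => Lc ω e.prod (nn (vx e 0) * hmt m Q fun j => nn (vx e j))) =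
      ∑ k ∈ Finset.range m, wsum B A Q (q k) := by
    rw [← partA_finsum]
    refine wsum_congr B A Q fun e _ => ?_
    unfold hmt
    rw [Finset.mul_sum, Finset.mul_sum, map_sum]
  rw [e1]
  rcases Nat.eq_zero_or_pos m with h0 | hm
  · subst h0
    simp
  have hs : ∀ s : ℤ, ∑ k ∈ Finset.range m, (((m - 1).choose k : ℤ) * wsum B A Q (q k)) * s ^ k =
      0 := by
    intro s
    rw [← partA_s hω hm A B hAB hBA s Q hQ]
    have e2 : ∀ k, (((m - 1).choose k : ℤ) * wsum B A Q (q k)) * s ^ k =
        wsum B A Q (fun e => (((m - 1).choose k : ℤ) * s ^ k) * q k e) := by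
      intro k
      rw [wsum_smul]
      ring
    rw [Finset.sum_congr rfl (fun k _ => e2 k), ← partA_finsum]
    refine wsum_congr B A Q fun e he => ?_
    obtain ⟨K, _, f, α, D, L, deg, hS⟩ := partA_super hω e.prod
    set N : ℕ → K := fun j => f (nn (vx e j)) with hN
    have anti : ∀ a b, N a * N b = - (N b * N a) := fun a b => hS.anti _ _
    have hc : Commute (pg (fun j => N (2 * j)) Q) (pg N (2 * Q)) := by
      unfold pg
      refine Commute.sum_left _ _ _ fun a _ => Commute.sum_right _ _ _ fun b _ => ?_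
      exact (partA_pair_comm N anti _ _ _).mul_right (partA_pair_comm N anti _ _ _)
    have hLk : ∀ k, q k e = L (N 0 * (tri N Q * ((pg (fun j => N (2 * j)) Q) ^ k *
        (pg N (2 * Q)) ^ (m - 1 - k)))) := by
      intro k
      show Lc ω e.prod _ = _
      rw [← hS.L_f, map_mul f, map_mul f, map_mul f, map_pow f, map_pow f, map_pg, map_pg,
        map_tri]
    rw [← hS.L_f, map_mul f, map_mul f, map_pow f, map_add f, map_zsmul f, map_pg, map_pg,
      map_tri]
    show _ = L (N 0 * (tri N Q * (s • pg (fun j => N (2 * j)) Q + pg N (2 * Q)) ^ (m - 1)))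
    rw [(hc.smul_left s).add_pow, Finset.mul_sum, Finset.mul_sum, map_sum,
      show m - 1 + 1 = m by omega]
    refine Finset.sum_congr rfl fun k _ => ?_
    rw [hLk k, ← smul_eq_mul, ← map_zsmul]
    congr 1
    rw [smul_pow, smul_mul_assoc, smul_mul_assoc, mul_smul_comm, mul_smul_comm]
    rw [mul_comm (((m - 1).choose k : ℕ) : ℤ), mul_smul]
    congr 1
    rw [← nsmul_eq_mul', natCast_zsmul, mul_smul_comm, mul_smul_comm]
  have hz : ∀ k ∈ Finset.range m, wsum B A Q (q k) = 0 := by
    set P : Polynomial ℤ := ∑ k ∈ Finset.range m,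
      Polynomial.C (((m - 1).choose k : ℤ) * wsum B A Q (q k)) * Polynomial.X ^ k with hP
    have hP0 : P = 0 := by
      refine Polynomial.funext fun s => ?_
      rw [hP, Polynomial.eval_finsetSum, Polynomial.eval_zero]
      simpa using hs s
    intro k hk
    have h1 : P.coeff k = ((m - 1).choose k : ℤ) * wsum B A Q (q k) := by
      rw [hP, Polynomial.finsetSum_coeff]
      rw [Finset.sum_eq_single k]
      · rw [Polynomial.coeff_C_mul, Polynomial.coeff_X_pow, if_pos rfl, mul_one]
      · intro b _ hb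
        rw [Polynomial.coeff_C_mul, Polynomial.coeff_X_pow, if_neg (Ne.symm hb), mul_zero]
      · intro h
        exact absurd hk h
    rw [hP0, Polynomial.coeff_zero] at h1
    rw [Finset.mem_range] at hk
    have h2 : ((m - 1).choose k : ℤ) ≠ 0 := by
      have := Nat.choose_pos (n := m - 1) (k := k) (by omega)
      exact_mod_cast this.ne'
    exact (mul_eq_zero.1 h1.symm).resolve_left h2
  exact Finset.sum_eq_zero hz

end Pool.Agent.Lib.MP_8f66f0_al_Chern
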