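import Pool.Agent.Lib.MP_8f66f0_al_Chern.Defs2

/-! # Syntactic rings. -/

set_option autoImplicit false
set_option linter.unusedSectionVars false
set_option linter.unusedVariables false

universe u

namespace Pool.Agent.Lib.MP_8f66f0_al_Chern

open Pool.Agent.Lib.MP_8f66f0_al_FinQ Pool.Agent.Lib.MP_8f66f0_al_Uni

/-- The syntactic ideal. -/
noncomputable def synGen_I {M : Type*} [Monoid M] (φ : M → ℤ) : Ideal (MonoidAlgebra ℤ M) where
  carrier := {z | ∀ u v, lin φ (u * z * v) = 0}
  add_mem' := by
    intro a b ha hb u v
    rw [mul_add, add_mul, map_add, ha, hb, add_zero]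
  zero_mem' := by
    intro u v
    rw [mul_zero, zero_mul, map_zero]
  smul_mem' := by
    intro c x hx u v
    rw [smul_eq_mul, ← mul_assoc u c x]
    exact hx (u * c) v

theorem synGen_mem {M : Type*} [Monoid M] (φ : M → ℤ) (z : MonoidAlgebra ℤ M) :
    z ∈ synGen_I φ ↔ ∀ u v, lin φ (u * z * v) = 0 := Iff.rfl

instance synGen_two {M : Type*} [Monoid M] (φ : M → ℤ) : (synGen_I φ).IsTwoSided := by
  constructor
  intro a b ha u v
  rw [← mul_assoc u a b, mul_assoc]
  exact ha u (b * v)

theorem exists_syn {M : Type u} [Monoid M] (φ : M → ℤ) :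
    ∃ (K : Type u) (_ : Ring K) (f : MonoidAlgebra ℤ M →+* K) (L : K →+ ℤ),
      Function.Surjective f ∧ (∀ x, L (f x) = lin φ x) ∧
      ∀ z, f z = 0 ↔ ∀ a b : M,
        lin φ (MonoidAlgebra.single a 1 * z * MonoidAlgebra.single b 1) = 0 := by
  refine ⟨MonoidAlgebra ℤ M ⧸ synGen_I φ, inferInstance, Ideal.Quotient.mk (synGen_I φ),
    QuotientAddGroup.lift _ (lin φ) ?_, Ideal.Quotient.mk_surjective, fun x => rfl, ?_⟩
  · intro z hz
    have h := (synGen_mem φ z).1 hz 1 1
    rwa [one_mul, mul_one] at h
  · intro z
    rw [Ideal.Quotient.eq_zero_iff_mem, synGen_mem]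
    constructor
    · intro h a b
      exact h _ _
    · intro h u v
      induction u using MonoidAlgebra.induction_linear with
      | zero => rw [zero_mul, zero_mul, map_zero]
      | add x y hx hy => rw [add_mul, add_mul, map_add, hx, hy, add_zero]
      | single a r =>
        induction v using MonoidAlgebra.induction_linear with
        | zero => rw [mul_zero, map_zero]
        | add x y hx hy => rw [mul_add, map_add, hx, hy, add_zero]
        | single b s =>
          have e1 : (MonoidAlgebra.single a r : MonoidAlgebra ℤ M) = r • MonoidAlgebra.single a 1 := by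
            simp
          have e2 : (MonoidAlgebra.single b s : MonoidAlgebra ℤ M) = s • MonoidAlgebra.single b 1 := by
            simp
          rw [e1, e2, smul_mul_assoc, smul_mul_assoc, mul_smul_comm, map_zsmul, map_zsmul, h a b,
            smul_zero, smul_zero]

end Pool.Agent.Lib.MP_8f66f0_al_Chern
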